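import Mathlib

set_option autoImplicit false

/-!
# FI-modules: definitions
-/

namespace Pool.Agent.H23.FI

open CategoryTheory

universe u v

/-- the category FI: the object `n` stands for the finite set `[n]` with `n` elements -/
structure FI where
  n : ℕ

/-- the morphisms of FI are the injective maps -/
instance : Category FI where
  Hom a b := Fin a.n ↪ Fin b.n
  id a := Function.Embedding.refl _
  comp f g := f.trans g

variable {k : Type u} [CommRing k]

/-- the `k`-submodules `A a` of the modules `V a` form an FI-submodule of the FI-module `V` -/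
def IsSub (V : FI ⥤ ModuleCat.{v} k) (A : ∀ a, Submodule k (V.obj a)) : Prop :=
  ∀ (a b : FI) (f : a ⟶ b), ∀ x ∈ A a, (V.map f).hom x ∈ A b

/-- all the transition maps of the FI-module `V` are injective -/
def TorsionFree (V : FI ⥤ ModuleCat.{v} k) : Prop :=
  ∀ (a b : FI) (f : a ⟶ b), Function.Injective (V.map f).hom

/-- the FI-module `V` is not zero and not the direct sum of two nonzero FI-submodules -/
def IsIndecomposable (V : FI ⥤ ModuleCat.{v} k) : Prop :=
  (∃ a, Nontrivial (V.obj a)) ∧ ∀ A B : ∀ a, Submodule k (V.obj a), IsSub V A → IsSub V B →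
    (∀ a, IsCompl (A a) (B a)) → A = ⊥ ∨ B = ⊥

/-- the FI-module `V` has finite uniform dimension, that is, it contains no infinite direct sum of
nonzero FI-submodules: for nonzero submodules `A 0, A 1, A 2, ...` the intersection of some `A i` with
`A 0 + ... + A (i - 1)` is not zero -/
def FiniteUniformDim (V : FI ⥤ ModuleCat.{v} k) : Prop :=
  ∀ A : ℕ → ∀ a, Submodule k (V.obj a), (∀ i, IsSub V (A i)) → (∀ i, A i ≠ ⊥) →
    ∃ i, A i ⊓ ⨆ j < i, A j ≠ ⊥

/-- the `k`-module `N` has finite uniform dimension: it contains no infinite direct sum of nonzero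
submodules -/
def FiniteUniformDimMod (k : Type u) [CommRing k] (N : Type v) [AddCommGroup N] [Module k N] :
    Prop :=
  ∀ A : ℕ → Submodule k N, (∀ i, A i ≠ ⊥) → ∃ i, A i ⊓ ⨆ j < i, A j ≠ ⊥

end Pool.Agent.H23.FI
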