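import Pool.Agent.H23.FI.TameB
import Pool.Agent.H23.FI.Def

set_option autoImplicit false

/-!
# FI-modules and tame modules

Adapted from the case of a field (`Pool/Graph/R_pool_sql_team_ae5b0c61/Results/MP_b23a2c_al/Finite.lean`).
-/

namespace Pool.Agent.H23.FI

open CategoryTheory Function

universe u v

variable {k : Type u} [CommRing k]

theorem tame_of (V : FI ⥤ ModuleCat.{v} k) (tf : TorsionFree V) :
    ∃ (J : Type v) (_ : AddCommGroup J) (_ : Module (R k) J) (_ : Module k J)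
      (_ : IsScalarTower k (R k) J) (c : ∀ n : ℕ, V.obj ⟨n⟩ →ₗ[k] J),
      (∀ n, Injective (c n)) ∧ (∀ n x, Supp k n (c n x)) ∧ (∀ y, ∃ n x, c n x = y) ∧
      ∀ A : Submodule (R k) J, IsSub V fun a => (A.restrictScalars k).comap (c a.n) := by
  let G : ℕ → Type v := fun n : ℕ => V.obj ⟨n⟩
  let mp : ∀ {m n : ℕ}, (Fin m ↪ Fin n) → G m →ₗ[k] G n := fun {m n} e =>
    (V.map (X := ⟨m⟩) (Y := ⟨n⟩) e).hom
  have mc : ∀ {m n l : ℕ} (e : Fin m ↪ Fin n) (g : Fin n ↪ Fin l) x,
      mp g (mp e x) = mp (e.trans g) x := fun {m n l} e g x =>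
    congrArg (fun t : V.obj ⟨m⟩ ⟶ V.obj ⟨l⟩ => t.hom x) (V.map_comp (X := ⟨m⟩) (Y := ⟨n⟩) (Z := ⟨l⟩) e g).symm
  have mi : ∀ n x, mp (Embedding.refl (Fin n)) x = x := fun n x =>
    congrArg (fun t : V.obj ⟨n⟩ ⟶ V.obj ⟨n⟩ => t.hom x) (V.map_id ⟨n⟩)
  let t : ∀ m n, m ≤ n → G m →ₗ[k] G n := fun m n h => mp (Fin.castLEEmb h)
  have : DirectedSystem G fun i j h => t i j h := by
    constructor
    · intro n x; exact mi n x
    · intro _ _ _ h1 h2 x; exact mc _ _ x
  let of := Module.DirectLimit.of k ℕ G t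
  have oe : ∀ {n N L : ℕ} (e : Fin n ↪ Fin N) (g : Fin n ↪ Fin L) x, (∀ i, (e i).val = g i) →
      of N (mp e x) = of L (mp g x) := fun {n N L} e g x h => by
    rw [← Module.DirectLimit.of_f (hij := le_max_left N L),
      ← Module.DirectLimit.of_f (hij := le_max_right N L), mc, mc]
    congr 3
    exact Embedding.ext fun i => Fin.ext (h i)
  let r : ∀ (f : M) n, Fin n ↪ Fin (bnd f n).choose := fun f n =>
    ⟨fun i => ⟨f i, (bnd f n).choose_spec.2 i i.2⟩, fun i j e => Fin.ext (f.inj (congrArg Fin.val e))⟩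
  let ρ : Representation k M (Module.DirectLimit G t) :=
    { toFun f := Module.DirectLimit.lift k ℕ G t (fun n => of _ ∘ₗ mp (r f n)) fun i j h x =>
        (congrArg (of _) (mc (Fin.castLEEmb h) (r f j) x)).trans (oe _ (r f i) x fun _ => rfl)
      map_one' := Module.DirectLimit.hom_ext fun n => LinearMap.ext fun x => by
        simp only [LinearMap.comp_apply, Module.End.one_apply, Module.DirectLimit.lift_of]
        exact (oe (r 1 n) (Embedding.refl _) x fun _ => rfl).trans (congrArg _ (mi _ x))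
      map_mul' f g := Module.DirectLimit.hom_ext fun n => LinearMap.ext fun x => by
        simp only [LinearMap.comp_apply, Module.End.mul_apply, Module.DirectLimit.lift_of, of, mc]
        exact oe _ _ x fun _ => rfl }
  have act : ∀ (f : M) {n N : ℕ} (e : Fin n ↪ Fin N) x, (∀ i, (e i).val = f i) →
      o k f • ρ.asModuleEquiv.symm (of n x) = ρ.asModuleEquiv.symm (of N (mp e x)) :=
    fun f n N e x h => (ρ.asModuleEquiv_symm_map_rho f _).symm.trans (congrArg _
      ((show ρ f (of n x) = of _ (mp (r f n) x) by simp [ρ, of]).trans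
        (oe (r f n) e x fun i => (h i).symm)))
  let c := fun n => ρ.asModuleEquiv.symm.toLinearMap ∘ₗ of n
  have sp : ∀ n x, Supp k n (c n x) := fun n x f g e =>
    (act f (r f n) x fun _ => rfl).trans (act g (r f n) x fun i => e i i.2).symm
  have sj : ∀ y, ∃ n x, c n x = y := fun y => Module.DirectLimit.exists_of (ρ.asModuleEquiv y)
  have ci : ∀ n, Function.Injective (c n) := fun n => (injective_iff_map_eq_zero _).mpr fun x hx => by
    obtain ⟨j, h, e⟩ := Module.DirectLimit.of.zero_exact (show of n x = 0 from hx)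
    exact tf ⟨n⟩ ⟨j⟩ _ (e.trans (map_zero _).symm)
  refine ⟨ρ.asModule, inferInstance, inferInstance, inferInstance, inferInstance, c, ci, sp, sj,
    fun A b d f x hx => ?_⟩
  let e : ℕ → ℕ := fun i => if h : i < b.n then (f.toFun ⟨i, h⟩).val else 0
  obtain ⟨K, -, hK⟩ := bnd e b.n
  show ρ.asModuleEquiv.symm (of d.n (mp f x)) ∈ A
  exact (act (patch e b.n K (fun i hi j hj q => congrArg Fin.val (f.inj' (Fin.ext (by
    simpa only [e, hi, hj, dif_pos] using q) : f.toFun ⟨i, hi⟩ = f.toFun ⟨j, hj⟩))) hK) f x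
    fun i => by simp [patch, e]) ▸ A.smul_mem _ hx

end Pool.Agent.H23.FI
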