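import Pool.Agent.H23.FI.Fud
import Pool.Agent.H23.FI.Trans

set_option autoImplicit false

/-!
# FI-modules of finite uniform dimension over commutative Noetherian rings
-/

namespace Pool.Agent.H23.FI

open CategoryTheory Function

universe u v

variable {k : Type u} [CommRing k]

lemma pi_le {V : FI ⥤ ModuleCat.{v} k} {A B : ∀ a, Submodule k (V.obj a)} (h : A ≤ B) (a : FI) :
    A a ≤ B a := h a

lemma tame_fud (V : FI ⥤ ModuleCat.{v} k) (hV : FiniteUniformDim V) {J : Type v} [AddCommGroup J]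
    [Module (R k) J] [Module k J] [IsScalarTower k (R k) J] (c : ∀ n : ℕ, V.obj ⟨n⟩ →ₗ[k] J)
    (hc : ∀ n, Injective (c n)) (hs : ∀ y, ∃ n x, c n x = y)
    (hA : ∀ A : Submodule (R k) J, IsSub V fun a => (A.restrictScalars k).comap (c a.n)) :
    FinUDim k J := by
  intro A h0
  let S : Submodule (R k) J → ∀ a : FI, Submodule k (V.obj a) := fun A a =>
    (A.restrictScalars k).comap (c a.n)
  have hS : ∀ A B, A ≤ B → S A ≤ S B := fun A B h a x hx => h hx
  have hS0 : ∀ A, S A = ⊥ → A = ⊥ := fun A h => eq_bot_iff.mpr fun y hy => by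
    obtain ⟨n, x, rfl⟩ := hs y
    rw [show x = 0 from (congrFun h ⟨n⟩).le hy, map_zero]; exact Submodule.zero_mem _
  obtain ⟨i, hi⟩ := hV (fun i => S (A i)) (fun i => hA (A i)) fun i h => h0 i (hS0 _ h)
  refine ⟨i, fun h => hi ?_⟩
  have h1 : S (A i) ⊓ ⨆ j < i, S (A j) ≤ S (A i ⊓ ⨆ j < i, A j) := by
    have h2 : (⨆ j < i, S (A j)) ≤ S (⨆ j < i, A j) :=
      iSup₂_le fun j hj => hS _ _ (le_iSup₂_of_le (f := fun j (_ : j < i) => A j) j hj le_rfl)
    intro a x hx
    exact ⟨hx.1, h2 a hx.2⟩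
  rw [h] at h1
  refine eq_bot_iff.mpr (h1.trans fun a x hx => ?_)
  have hx2 : c a.n x = 0 := (Submodule.mem_bot (R k)).mp hx
  exact (Submodule.mem_bot k).mpr (hc a.n (hx2.trans (map_zero _).symm))

/-- Noetherian coefficients -/
theorem main_noeth [IsNoetherianRing k] (V : FI ⥤ ModuleCat.{v} k) (tf : TorsionFree V)
    (hV : FiniteUniformDim V) (n : ℕ) (B : ℕ → Submodule k (V.obj ⟨n⟩)) (hB : ∀ i, B i ≠ ⊥) :
    ∃ i, B i ⊓ ⨆ j < i, B j ≠ ⊥ := by
  obtain ⟨J, _, _, _, _, c, hc, hsupp, hs, hA⟩ := tame_of V tf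
  have hu := tame_fud V hV c hc hs hA
  have ht : ∀ x : J, ∃ m, Supp k m x := fun y => by
    obtain ⟨m, x, rfl⟩ := hs y
    exact ⟨m, hsupp m x⟩
  obtain ⟨i, hi⟩ := noeth_fud ht hu n (fun i => (B i).map (c n))
    (fun i h => hB i (eq_bot_iff.mpr fun x hx => by
      have hx2 : c n x ∈ (B i).map (c n) := Submodule.mem_map_of_mem hx
      rw [h] at hx2
      exact (Submodule.mem_bot k).mpr
        (hc n (((Submodule.mem_bot k).mp hx2).trans (map_zero _).symm)))) (fun i => by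
      rintro _ ⟨x, -, rfl⟩
      exact hsupp n x)
  refine ⟨i, fun h => hi ?_⟩
  have h2 : (⨆ j < i, (B j).map (c n)) = (⨆ j < i, B j).map (c n) := by
    simp only [Submodule.map_iSup]
  rw [h2, ← Submodule.map_inf _ (hc n), h, Submodule.map_bot]

/-- Artinian coefficients -/
theorem main_art [IsArtinianRing k] (V : FI ⥤ ModuleCat.{v} k) (tf : TorsionFree V)
    (hV : FiniteUniformDim V) (n : ℕ) : Module.Finite k (V.obj ⟨n⟩) := by
  obtain ⟨J, _, _, _, _, c, hc, hsupp, hs, hA⟩ := tame_of V tf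
  have hu := tame_fud V hV c hc hs hA
  have ht : ∀ x : J, ∃ m, Supp k m x := fun y => by
    obtain ⟨m, x, rfl⟩ := hs y
    exact ⟨m, hsupp m x⟩
  have h := fud_fg ht hu n
  exact ⟨Submodule.fg_of_fg_map_injective _ (hc n) (h.of_le (by
    rintro _ ⟨x, -, rfl⟩; exact hsupp n x))⟩

end Pool.Agent.H23.FI
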