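import Pool.Agent.H23.FI.Loc2

set_option autoImplicit false

/-!
# Tame modules of finite uniform dimension over commutative Noetherian rings
-/

namespace Pool.Agent.H23.FI

open Function Submodule

universe u w

variable {k : Type u} [CommRing k]

section
variable {J : Type w} [AddCommGroup J] [Module (R k) J] [Module k J] [IsScalarTower k (R k) J]

/-- infinitely many elements with the same prime annihilator -/
theorem case_one [IsNoetherianRing k] (ht : ∀ x : J, ∃ m, Supp k m x) (hu : FinUDim k J)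
    (p : Ideal k) [hp : p.IsPrime] (n : ℕ) (y : ℕ → J) (hyn : ∀ i, Supp k n (y i))
    (hy : ∀ i c, c • y i = 0 ↔ c ∈ p) :
    ∃ i, ∃ c, c ∉ p ∧ c • y i ∈ span k (y '' {j | j < i}) := by
  obtain ⟨K, _, φ, J', _, _, _, _, ι, h1, h2, h3, h4, h5, h6⟩ := exists_loc (J := J) p
  have h10 : (1 : k) ∉ p := fun h => hp.ne_top ((Ideal.eq_top_iff_one p).mpr h)
  have hφ0 : ∀ c, c ∉ p → φ c ≠ 0 := fun c hc h => hc ((h1 c).mp h)
  have tame' : ∀ z : J', ∃ m, Supp K m z := by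
    intro z
    obtain ⟨x, c, hc, e⟩ := h6 z
    obtain ⟨m, hm⟩ := ht x
    refine ⟨m, fun f g hfg => ?_⟩
    have e1 : o K f • ι x = o K g • ι x :=
      (h4 f x (act p f x) rfl).symm.trans (h4 g x (act p f x) (hm f g hfg))
    have e2 : φ c • (o K f • z - o K g • z) = 0 := by
      rw [smul_sub, ← osm, ← osm, e, e1, sub_self]
    exact sub_eq_zero.mp ((smul_eq_zero.mp e2).resolve_left (hφ0 c hc))
  -- the preimage in `J` of a submodule of `J'`
  have pull : ∀ A : Submodule (R K) J', ∃ B : Submodule (R k) J,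
      ∀ x, x ∈ B ↔ ∃ h : x ∈ Qs J p, ι ⟨x, h⟩ ∈ A := by
    intro A
    let B0 : Submodule k J :=
      { carrier := {x | ∃ h : x ∈ Qs J p, ι ⟨x, h⟩ ∈ A}
        add_mem' := by
          rintro a b ⟨ha, ha'⟩ ⟨hb, hb'⟩
          refine ⟨add_mem ha hb, ?_⟩
          have : ι ⟨a + b, add_mem ha hb⟩ = ι ⟨a, ha⟩ + ι ⟨b, hb⟩ := by
            rw [← map_add]; rfl
          rw [this]
          exact A.add_mem ha' hb'
        zero_mem' := ⟨zero_mem _, by
          have : ι ⟨0, zero_mem _⟩ = 0 := map_zero ι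
          rw [this]; exact A.zero_mem⟩
        smul_mem' := by
          rintro c a ⟨ha, ha'⟩
          refine ⟨Submodule.smul_mem _ c ha, ?_⟩
          have : ι ⟨c • a, Submodule.smul_mem _ c ha⟩ = φ c • ι ⟨a, ha⟩ := h3 c ⟨a, ha⟩
          rw [this]
          exact A.smul_of_tower_mem _ ha' }
    refine ⟨mkR B0 ?_, fun x => Iff.rfl⟩
    rintro f x ⟨hx, hx'⟩
    refine ⟨(act p f ⟨x, hx⟩).2, ?_⟩
    rw [h4 f ⟨x, hx⟩ _ rfl]
    exact A.smul_mem _ hx'
  choose P hP using pull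
  have fud' : FinUDim K J' := by
    intro A hA
    have hx : ∀ i, ∃ x : Qs J p, ι x ∈ A i ∧ ι x ≠ 0 := by
      intro i
      obtain ⟨z, hz, hz0⟩ := (Submodule.ne_bot_iff _).mp (hA i)
      obtain ⟨x, c, hc, e⟩ := h6 z
      refine ⟨x, e ▸ (A i).smul_of_tower_mem _ hz, e ▸ fun h => hz0 ?_⟩
      exact (smul_eq_zero.mp h).resolve_left (hφ0 c hc)
    choose x hxA hx0 using hx
    have hgood : ∀ i, ∃ A' : Submodule (R k) J, A' ≠ ⊥ ∧ A' ≤ span (R k) {(x i : J)} ∧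
        ∀ z ∈ A', z ≠ 0 → ∀ c : k, c • z = 0 ↔ c ∈ p := fun i =>
      good_sub ht p (x i : J) (fun c hc => (x i).2 c hc) fun c hc h =>
        hx0 i ((h5 (x i)).mpr ⟨c, hc, Subtype.ext h⟩)
    choose A' hA'0 hA'1 hA'2 using hgood
    have hle : ∀ i, A' i ≤ P (A i) := fun i => (hA'1 i).trans (span_le.mpr (by
      rintro _ rfl
      exact (hP (A i) _).mpr ⟨(x i).2, hxA i⟩))
    obtain ⟨i, hi⟩ := hu A' hA'0
    obtain ⟨z, hz, hz0⟩ := (Submodule.ne_bot_iff _).mp hi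
    refine ⟨i, fun hbot => ?_⟩
    obtain ⟨hzQ, hzA⟩ := (hP (A i) z).mp (hle i hz.1)
    obtain ⟨_, hzB⟩ := (hP (⨆ j < i, A j) z).mp ((iSup₂_le fun j hj => (hle j).trans fun w hw => by
      obtain ⟨hwQ, hwA⟩ := (hP (A j) w).mp hw
      exact (hP (⨆ j < i, A j) w).mpr ⟨hwQ, (le_iSup₂_of_le (f := fun j (_ : j < i) => A j)
        j hj le_rfl) hwA⟩ : (⨆ j < i, A' j) ≤ P (⨆ j < i, A j)) hz.2)
    have h0 : ι ⟨z, hzQ⟩ = 0 := by
      have : ι ⟨z, hzQ⟩ ∈ A i ⊓ ⨆ j < i, A j := ⟨hzA, hzB⟩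
      rw [hbot] at this
      exact (Submodule.mem_bot _).mp this
    obtain ⟨c, hc, e⟩ := (h5 _).mp h0
    exact hc ((hA'2 i z hz.1 hz0 c).mp (congrArg Subtype.val e))
  have fg : (sub K J' n).FG := fud_fg tame' fud' n
  have hyQ : ∀ i, y i ∈ Qs J p := fun i c hc => (hy i c).mpr hc
  let v : ℕ → J' := fun i => ι ⟨y i, hyQ i⟩
  have hv : ∀ i, v i ∈ sub K J' n := fun i f g hfg =>
    (h4 f ⟨y i, hyQ i⟩ (act p f ⟨y i, hyQ i⟩) rfl).symm.trans
      (h4 g ⟨y i, hyQ i⟩ (act p f ⟨y i, hyQ i⟩) (hyn i f g hfg))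
  have noe : IsNoetherian K (sub K J' n) := isNoetherian_of_fg_of_noetherian _ fg
  obtain ⟨N, hN⟩ := monotone_stabilizes_iff_noetherian.mpr noe
    ⟨fun i => (span K (v '' {j | j < i})).comap (sub K J' n).subtype, fun i j hij =>
      comap_mono (span_mono (Set.image_mono fun l hl => lt_of_lt_of_le hl hij))⟩
  have hvN : v N ∈ span K (v '' {j | j < N}) := by
    have h7 : (⟨v N, hv N⟩ : sub K J' n) ∈
        (span K (v '' {j | j < N + 1})).comap (sub K J' n).subtype :=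
      subset_span ⟨N, Nat.lt_succ_self N, rfl⟩
    have h8 := hN (N + 1) (Nat.le_succ N)
    simp only [OrderHom.coe_mk] at h8
    rw [← h8] at h7
    exact h7
  have key : ∀ z ∈ span K (v '' {j | j < N}), ∃ x, x ∈ span k (y '' {j | j < N}) ∧
      ∃ hx : x ∈ Qs J p, ∃ c, c ∉ p ∧ φ c • z = ι ⟨x, hx⟩ := by
    intro z hz
    induction hz using Submodule.span_induction with
    | mem z hz =>
      obtain ⟨j, hj, rfl⟩ := hz
      exact ⟨y j, subset_span ⟨j, hj, rfl⟩, hyQ j, 1, h10, by rw [map_one, one_smul]⟩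
    | zero => exact ⟨0, zero_mem _, zero_mem _, 1, h10, by rw [smul_zero]; exact (map_zero ι).symm⟩
    | add a b _ _ ha hb =>
      obtain ⟨x, hx, hxQ, c, hc, e⟩ := ha
      obtain ⟨x', hx', hxQ', c', hc', e'⟩ := hb
      refine ⟨c' • x + c • x', add_mem (smul_mem _ _ hx) (smul_mem _ _ hx'),
        add_mem (smul_mem _ _ hxQ) (smul_mem _ _ hxQ'), c * c',
        fun h => (hp.mem_or_mem h).elim hc hc', ?_⟩
      have e3 : ι ⟨c' • x + c • x', add_mem (smul_mem _ _ hxQ) (smul_mem _ _ hxQ')⟩ =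
          φ c' • ι ⟨x, hxQ⟩ + φ c • ι ⟨x', hxQ'⟩ := by
        rw [← h3, ← h3, ← map_add]; rfl
      rw [e3, ← e, ← e', map_mul, smul_add, mul_smul, smul_comm (φ c) (φ c') a, mul_smul]
    | smul r a _ ha =>
      obtain ⟨x, hx, hxQ, c, hc, e⟩ := ha
      obtain ⟨b, s, hs, er⟩ := h2 r
      refine ⟨b • x, smul_mem _ _ hx, smul_mem _ _ hxQ, s * c,
        fun h => (hp.mem_or_mem h).elim hs hc, ?_⟩
      have e3 : ι ⟨b • x, smul_mem _ _ hxQ⟩ = φ b • ι ⟨x, hxQ⟩ := h3 b ⟨x, hxQ⟩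
      rw [e3, ← e, ← er, map_mul, ← mul_smul, ← mul_smul]
      congr 1
      ring
  obtain ⟨x, hx, hxQ, c, hc, e⟩ := key _ hvN
  have e1 : ι (c • ⟨y N, hyQ N⟩ - ⟨x, hxQ⟩) = 0 := by
    rw [map_sub, h3, ← e, sub_self]
  obtain ⟨d, hd, e2⟩ := (h5 _).mp e1
  refine ⟨N, d * c, fun h => (hp.mem_or_mem h).elim hd hc, ?_⟩
  have e3 : d • (c • y N - x) = 0 := congrArg Subtype.val e2
  rw [smul_sub, sub_eq_zero, ← mul_smul] at e3
  rw [e3]
  exact smul_mem _ _ hx

omit [Module (R k) J] [IsScalarTower k (R k) J] in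
lemma exists_prime_ann [IsNoetherianRing k] (B : Submodule k J) (hB : B ≠ ⊥) :
    ∃ (y : J) (p : Ideal k), y ∈ B ∧ p.IsPrime ∧ ∀ c, c • y = 0 ↔ c ∈ p := by
  have ann : ∀ y : J, ∃ I : Ideal k, ∀ c, c ∈ I ↔ c • y = 0 := fun y =>
    ⟨LinearMap.ker (LinearMap.toSpanSingleton k J y), fun c => by simp⟩
  obtain ⟨x, hx, hx0⟩ := (Submodule.ne_bot_iff _).mp hB
  obtain ⟨I0, hI0⟩ := ann x
  obtain ⟨P, ⟨y, hyB, hy0, hy⟩, hmax⟩ := set_has_maximal_iff_noetherian.mpr
    (inferInstance : IsNoetherian k k)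
    {I : Ideal k | ∃ y ∈ B, y ≠ 0 ∧ ∀ c, c ∈ I ↔ c • y = 0} ⟨I0, x, hx, hx0, hI0⟩
  refine ⟨y, P, hyB, ⟨fun h => hy0 ?_, fun {a b} hab => ?_⟩, fun c => (hy c).symm⟩
  · have : (1 : k) ∈ P := h ▸ mem_top
    simpa using (hy 1).mp this
  · by_contra hcon
    push Not at hcon
    obtain ⟨ha, hb⟩ := hcon
    have hb0 : b • y ≠ 0 := fun h => hb ((hy b).mpr h)
    obtain ⟨I, hI⟩ := ann (b • y)
    refine hmax I ⟨b • y, smul_mem _ _ hyB, hb0, hI⟩ (lt_of_le_of_ne (fun c hc => ?_) fun h => ?_)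
    · rw [hI, smul_comm, (hy c).mp hc, smul_zero]
    · apply ha
      rw [h, hI, ← mul_smul]
      exact (hy _).mp hab

/-- the uniform dimension of the part of degree `n` is finite -/
theorem noeth_fud [IsNoetherianRing k] (ht : ∀ x : J, ∃ m, Supp k m x) (hu : FinUDim k J)
    (n : ℕ) (B : ℕ → Submodule k J) (hB : ∀ i, B i ≠ ⊥) (hBn : ∀ i, B i ≤ sub k J n) :
    ∃ i, B i ⊓ ⨆ j < i, B j ≠ ⊥ := by
  have h1 := fun i => exists_prime_ann (B i) (hB i)
  choose y p hyB hp hy using h1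
  have hy0 : ∀ i, ∀ c, c ∉ p i → c • y i ≠ 0 := fun i c hc h => hc ((hy i c).mp h)
  by_cases hfin : (Set.range p).Finite
  · -- one prime occurs infinitely often
    have : Finite (Set.range p) := hfin
    obtain ⟨⟨q, hq⟩, hinf⟩ := Finite.exists_infinite_fiber (Set.rangeFactorization p)
    have hinf' : {i | p i = q}.Infinite := by
      have hinf2 := Set.infinite_coe_iff.mp hinf
      refine hinf2.mono fun i hi => ?_
      exact congrArg Subtype.val hi
    let g : ℕ → ℕ := Nat.nth fun i => p i = q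
    have hg : ∀ i, p (g i) = q := fun i => Nat.nth_mem_of_infinite hinf' i
    have hmono : StrictMono g := Nat.nth_strictMono hinf'
    have hqp : q.IsPrime := hg 0 ▸ hp (g 0)
    obtain ⟨i, c, hc, hmem⟩ := case_one ht hu q n (fun i => y (g i)) (fun i => hBn _ (hyB (g i)))
      (fun i c => by rw [← hg i]; exact hy (g i) c)
    refine ⟨g i, fun hbot => ?_⟩
    have h2 : c • y (g i) ∈ B (g i) ⊓ ⨆ j < g i, B j := by
      refine ⟨smul_mem _ _ (hyB _), ?_⟩
      refine (span_le.mpr ?_) hmem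
      rintro _ ⟨j, hj, rfl⟩
      exact (le_iSup₂_of_le (f := fun j (_ : j < g i) => B j) (g j) (hmono hj) le_rfl) (hyB (g j))
    rw [hbot] at h2
    exact hy0 (g i) c (by rw [hg i]; exact hc) ((Submodule.mem_bot _).mp h2)
  · exfalso
    have hinf : (Set.range p).Infinite := hfin
    let e : ℕ ↪ Set.range p := hinf.natEmbedding
    have hch : ∀ i, ∃ j, p j = (e i).1 := fun i => (e i).2
    choose g hg using hch
    refine no_distinct ht hu (fun i => p (g i)) (fun i => hp _) (fun i j hij => ?_)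
      (fun i => y (g i)) fun i c => hy (g i) c
    apply e.injective
    apply Subtype.ext
    rw [← hg i, ← hg j]
    exact hij

end

end Pool.Agent.H23.FI
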