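import Pool.Agent.H23.FI.Primes

set_option autoImplicit false

/-!
# Localization of the part of a tame module which is killed by a prime ideal
-/

namespace Pool.Agent.H23.FI

open Function Submodule TensorProduct

universe u w

variable {k : Type u} [CommRing k]

section
variable {Q : Type w} [AddCommGroup Q] [Module k Q] (p : Ideal k) [hp : p.IsPrime]

lemma res_frac (r : p.ResidueField) : ∃ a s : k, s ∉ p ∧
    algebraMap k p.ResidueField s * r = algebraMap k p.ResidueField a := by
  obtain ⟨a', b', hb, rfl⟩ := IsFractionRing.div_surjective (A := k ⧸ p) r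
  obtain ⟨a, rfl⟩ := Ideal.Quotient.mk_surjective a'
  obtain ⟨b, rfl⟩ := Ideal.Quotient.mk_surjective b'
  have hbp : b ∉ p := fun h => nonZeroDivisors.ne_zero hb (Ideal.Quotient.eq_zero_iff_mem.mpr h)
  have e1 : ∀ c : k, algebraMap (k ⧸ p) p.ResidueField (Ideal.Quotient.mk p c) =
      algebraMap k p.ResidueField c := fun c =>
    (IsScalarTower.algebraMap_apply k (k ⧸ p) p.ResidueField c).symm
  refine ⟨a, b, hbp, ?_⟩
  rw [e1, e1]
  have h0 : algebraMap k p.ResidueField b ≠ 0 := fun h =>
    hbp (Ideal.algebraMap_residueField_eq_zero.mp h)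
  field_simp

lemma tors (hQ : ∀ c ∈ p, ∀ x : Q, c • x = 0) :
    Module.IsTorsionBySet (Localization.AtPrime p) (LocalizedModule p.primeCompl Q)
      (IsLocalRing.maximalIdeal (Localization.AtPrime p) : Set (Localization.AtPrime p)) := by
  rintro z ⟨r, hr⟩
  show r • z = 0
  rw [SetLike.mem_coe, ← Localization.AtPrime.map_eq_maximalIdeal] at hr
  induction hr using Submodule.span_induction with
  | mem x hx =>
    obtain ⟨c, hc, rfl⟩ := hx
    rw [algebraMap_smul]
    induction z using LocalizedModule.induction_on with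
    | h m s => rw [LocalizedModule.smul'_mk, hQ c hc, LocalizedModule.zero_mk]
  | zero => exact zero_smul _ _
  | add x y _ _ hx hy => rw [add_smul, hx, hy, add_zero]
  | smul a x _ hx => rw [smul_assoc, hx, smul_zero]

lemma ker_tensor (hQ : ∀ c ∈ p, ∀ x : Q, c • x = 0) (x : Q)
    (h : (1 : p.ResidueField) ⊗ₜ[k] x = 0) : ∃ c, c ∉ p ∧ c • x = 0 := by
  let _ : Module p.ResidueField (LocalizedModule p.primeCompl Q) := (tors p hQ).module
  have hmk : ∀ (r : Localization.AtPrime p) (z : LocalizedModule p.primeCompl Q),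
      (IsLocalRing.residue (Localization.AtPrime p) r) • z = r • z := fun r z => rfl
  have hsurj : ∀ r : p.ResidueField, ∃ r' : Localization.AtPrime p,
      IsLocalRing.residue (Localization.AtPrime p) r' = r := IsLocalRing.residue_surjective
  have hsm : ∀ (c : k) (r' : Localization.AtPrime p),
      c • (IsLocalRing.residue (Localization.AtPrime p) r') =
        IsLocalRing.residue (Localization.AtPrime p) (c • r') := fun c r' => rfl
  let B : p.ResidueField →ₗ[k] Q →ₗ[k] LocalizedModule p.primeCompl Q :=
    LinearMap.mk₂ k (fun r y => r • LocalizedModule.mk y 1)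
      (fun a b y => add_smul _ _ _)
      (fun c r y => by
        obtain ⟨r', rfl⟩ := hsurj r
        rw [hsm, hmk, hmk, smul_assoc])
      (fun r y z => by
        rw [← smul_add, LocalizedModule.mk_add_mk]
        simp)
      (fun c r y => by
        obtain ⟨r', rfl⟩ := hsurj r
        rw [← LocalizedModule.smul'_mk, hmk, hmk, smul_comm])
  have h1 := congrArg (TensorProduct.lift B) h
  rw [TensorProduct.lift.tmul, map_zero] at h1
  have h2 : (LocalizedModule.mk x 1 : LocalizedModule p.primeCompl Q) = 0 := by
    have : B 1 x = (1 : p.ResidueField) • LocalizedModule.mk x 1 := rfl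
    rw [this, one_smul] at h1
    exact h1
  rw [← LocalizedModule.zero_mk 1, LocalizedModule.mk_eq] at h2
  obtain ⟨c, hc⟩ := h2
  refine ⟨c.1, c.2, ?_⟩
  simpa [Submonoid.smul_def] using hc

lemma tensor_frac (z : p.ResidueField ⊗[k] Q) : ∃ (x : Q) (c : k), c ∉ p ∧
    algebraMap k p.ResidueField c • z = (1 : p.ResidueField) ⊗ₜ[k] x := by
  induction z using TensorProduct.induction_on with
  | zero => exact ⟨0, 1, fun h => hp.ne_top ((Ideal.eq_top_iff_one p).mpr h), by simp⟩
  | tmul r x =>
    obtain ⟨a, s, hs, e⟩ := res_frac p r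
    refine ⟨a • x, s, hs, ?_⟩
    rw [TensorProduct.smul_tmul', smul_eq_mul, e, TensorProduct.tmul_smul,
      TensorProduct.smul_tmul', Algebra.smul_def, mul_one]
  | add y z hy hz =>
    obtain ⟨a, c, hc, ea⟩ := hy
    obtain ⟨b, d, hd, eb⟩ := hz
    refine ⟨d • a + c • b, c * d, fun h => (hp.mem_or_mem h).elim hc hd, ?_⟩
    rw [TensorProduct.tmul_add, TensorProduct.tmul_smul, TensorProduct.tmul_smul, ← ea, ← eb,
      map_mul, smul_add]
    congr 1
    · rw [mul_comm, mul_smul, algebraMap_smul]
    · rw [mul_smul, algebraMap_smul]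

end

end Pool.Agent.H23.FI
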