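import Pool.Agent.H23.FI.Loc

set_option autoImplicit false

/-!
# The localized tame module over the residue field of a prime ideal
-/

namespace Pool.Agent.H23.FI

open Function Submodule TensorProduct

universe u w

variable {k : Type u} [CommRing k]

section
variable {J : Type w} [AddCommGroup J] [Module (R k) J] [Module k J] [IsScalarTower k (R k) J]

variable (J) in
/-- the elements which are killed by `p` -/
def Qs (p : Ideal k) : Submodule k J where
  carrier := {x | ∀ c ∈ p, c • x = 0}
  add_mem' ha hb c hc := by rw [smul_add, ha c hc, hb c hc, add_zero]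
  zero_mem' _ _ := smul_zero _
  smul_mem' d x hx c hc := by rw [smul_comm, hx c hc, smul_zero]

omit [Module (R k) J] [IsScalarTower k (R k) J] in
lemma mem_Qs {p : Ideal k} {x : J} : x ∈ Qs J p ↔ ∀ c ∈ p, c • x = 0 := Iff.rfl

/-- the action of the monoid on `Qs J p` -/
noncomputable def act (p : Ideal k) (f : M) : Qs J p →ₗ[k] Qs J p :=
  (DistribSMul.toLinearMap k J (o k f)).restrict (fun x hx c hc => by
    show c • o k f • x = 0
    rw [← osm, hx c hc, smul_zero])

lemma act_coe (p : Ideal k) (f : M) (x : Qs J p) : (act p f x : J) = o k f • (x : J) := rfl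

theorem exists_loc (p : Ideal k) [hp : p.IsPrime] :
    ∃ (K : Type u) (_ : Field K) (φ : k →+* K) (J' : Type (max u w)) (_ : AddCommGroup J')
      (_ : Module (R K) J') (_ : Module K J') (_ : IsScalarTower K (R K) J') (ι : Qs J p →+ J'),
      (∀ c, φ c = 0 ↔ c ∈ p) ∧ (∀ r : K, ∃ a s, s ∉ p ∧ φ s * r = φ a) ∧
      (∀ c x, ι (c • x) = φ c • ι x) ∧
      (∀ (f : M) (x y : Qs J p), (y : J) = o k f • (x : J) → ι y = o K f • ι x) ∧
      (∀ x, ι x = 0 ↔ ∃ c, c ∉ p ∧ c • x = 0) ∧ ∀ z, ∃ x c, c ∉ p ∧ φ c • z = ι x := by
  have hQ : ∀ c ∈ p, ∀ x : Qs J p, c • x = 0 := fun c hc x => Subtype.ext (x.2 c hc)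
  let ρ : Representation p.ResidueField M (p.ResidueField ⊗[k] Qs J p) :=
    { toFun f := (act p f).baseChange p.ResidueField
      map_one' := by
        refine LinearMap.ext fun z => ?_
        induction z using TensorProduct.induction_on with
        | zero => simp
        | tmul r x =>
          rw [LinearMap.baseChange_tmul, show act p 1 x = x from Subtype.ext (by
            rw [act_coe, o1])]
          rfl
        | add y z hy hz => rw [map_add, map_add, hy, hz]
      map_mul' f g := by
        refine LinearMap.ext fun z => ?_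
        induction z using TensorProduct.induction_on with
        | zero => simp
        | tmul r x =>
          rw [Module.End.mul_apply, LinearMap.baseChange_tmul, LinearMap.baseChange_tmul,
            LinearMap.baseChange_tmul, show act p (f * g) x = act p f (act p g x) from
            Subtype.ext (by rw [act_coe, act_coe, act_coe, oo])]
        | add y z hy hz => rw [map_add, map_add, hy, hz] }
  refine ⟨p.ResidueField, inferInstance, algebraMap k p.ResidueField, ρ.asModule, inferInstance,
    inferInstance, inferInstance, inferInstance,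
    { toFun x := ρ.asModuleEquiv.symm ((1 : p.ResidueField) ⊗ₜ[k] x)
      map_zero' := by rw [TensorProduct.tmul_zero, map_zero]
      map_add' x y := by rw [TensorProduct.tmul_add, map_add] }, fun c =>
    Ideal.algebraMap_residueField_eq_zero, res_frac p, fun c x => ?_, fun f x y h => ?_,
    fun x => ?_, fun z => ?_⟩
  · show ρ.asModuleEquiv.symm _ = algebraMap k p.ResidueField c • ρ.asModuleEquiv.symm _
    rw [← map_smul, TensorProduct.tmul_smul, algebraMap_smul]
  · have : y = act p f x := Subtype.ext h
    subst this
    show ρ.asModuleEquiv.symm _ = o p.ResidueField f • ρ.asModuleEquiv.symm _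
    refine Eq.trans ?_ (ρ.asModuleEquiv_symm_map_rho f _)
    congr 1
  · show ρ.asModuleEquiv.symm _ = 0 ↔ _
    rw [LinearEquiv.map_eq_zero_iff]
    refine ⟨ker_tensor p hQ x, fun ⟨c, hc, h⟩ => ?_⟩
    have h0 : algebraMap k p.ResidueField c ≠ 0 := fun h =>
      hc (Ideal.algebraMap_residueField_eq_zero.mp h)
    have h1 : algebraMap k p.ResidueField c • ((1 : p.ResidueField) ⊗ₜ[k] x) = 0 := by
      rw [algebraMap_smul, ← TensorProduct.tmul_smul, h, TensorProduct.tmul_zero]
    exact (smul_eq_zero.mp h1).resolve_left h0
  · obtain ⟨x, c, hc, e⟩ := tensor_frac p (ρ.asModuleEquiv z)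
    refine ⟨x, c, hc, ?_⟩
    show _ = ρ.asModuleEquiv.symm _
    rw [← e, map_smul, LinearEquiv.symm_apply_apply]

end

end Pool.Agent.H23.FI
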