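import Pool.Agent.H23.FI.Final

set_option autoImplicit false

/-!
# Indecomposable injective FI-modules over commutative Noetherian rings
-/

namespace Pool.Agent.H23.FI

open CategoryTheory Function

universe u v w

variable {k : Type u} [CommRing k]

section
variable {J : Type w} [AddCommGroup J] [Module (R k) J] [Module k J] [IsScalarTower k (R k) J]

/-- a scalar which kills a nonzero element of a uniform tame module acts locally nilpotently -/
theorem nilp [IsNoetherianRing k] (ht : ∀ x : J, ∃ m, Supp k m x)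
    (huni : ∀ A B : Submodule (R k) J, A ⊓ B = ⊥ → A = ⊥ ∨ B = ⊥) (c : k) (z : J) (hz : z ≠ 0)
    (hcz : c • z = 0) (x : J) : ∃ m, c ^ m • x = 0 := by
  obtain ⟨n, hn⟩ := ht x
  set N : Submodule (R k) J := Submodule.span (R k) {x} with hN
  have : IsNoetherian (R k) N := span_noeth hn
  let φ : Module.End (R k) N := c • LinearMap.id
  have hφ : ∀ m (y : N), (φ ^ m) y = c ^ m • y := by
    intro m
    induction m with
    | zero => intro y; simp
    | succ m ih =>
      intro y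
      rw [pow_succ', Module.End.mul_apply, ih, pow_succ', mul_smul]
      rfl
  obtain ⟨m, hm1, hm⟩ := ((Filter.eventually_ge_atTop 1).and
    (Module.End.eventually_disjoint_ker_pow_range_pow φ)).exists
  refine ⟨m, ?_⟩
  have hx : x ∈ N := Submodule.mem_span_singleton_self x
  have hbot : Submodule.span (R k) {c ^ m • x} ⊓
      LinearMap.ker (c • (LinearMap.id : J →ₗ[R k] J)) = ⊥ := by
    refine eq_bot_iff.mpr fun y hy => ?_
    obtain ⟨r, hr⟩ := Submodule.mem_span_singleton.mp hy.1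
    have hcy : c • y = 0 := hy.2
    have e1 : r • c ^ m • x = c ^ m • r • x := smul_comm _ _ _
    have hyN : y ∈ N := by
      rw [← hr, e1]
      exact Submodule.smul_of_tower_mem _ _ (N.smul_mem r hx)
    have h1 : (⟨y, hyN⟩ : N) ∈ LinearMap.ker (φ ^ m) := by
      rw [LinearMap.mem_ker, hφ]
      obtain ⟨l, rfl⟩ : ∃ l, m = l + 1 := ⟨m - 1, by omega⟩
      apply Subtype.ext
      show c ^ (l + 1) • y = 0
      rw [pow_succ, mul_smul, hcy, smul_zero]
    have h2 : (⟨y, hyN⟩ : N) ∈ LinearMap.range (φ ^ m) := by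
      refine ⟨⟨r • x, N.smul_mem r hx⟩, ?_⟩
      rw [hφ]
      apply Subtype.ext
      show c ^ m • r • x = y
      rw [← e1, hr]
    have h3 := (Submodule.disjoint_def.mp hm) _ h1 h2
    exact (Submodule.mem_bot (R k)).mpr (congrArg Subtype.val h3)
  rcases huni _ _ hbot with h | h
  · have := Submodule.mem_span_singleton_self (R := R k) (c ^ m • x)
    rw [h] at this
    exact (Submodule.mem_bot (R k)).mp this
  · exfalso
    apply hz
    have h2 : z ∈ LinearMap.ker (c • (LinearMap.id : J →ₗ[R k] J)) := hcz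
    rw [h] at h2
    exact (Submodule.mem_bot (R k)).mp h2

end

variable {V : FI ⥤ ModuleCat.{v} k}

lemma mx (A B : ∀ a, Submodule k (V.obj a)) (hB : IsSub V B) (h : A ⊓ B = ⊥) :
    ∃ C, B ≤ C ∧ IsSub V C ∧ A ⊓ C = ⊥ ∧ ∀ D, IsSub V D → C ≤ D → A ⊓ D = ⊥ → D ≤ C := by
  obtain ⟨C, h1, h2⟩ := zorn_le_nonempty₀ {C | IsSub V C ∧ A ⊓ C = ⊥} (fun c hc ch y hy => by
    have : Nonempty c := ⟨⟨y, hy⟩⟩
    have m : ∀ a x, x ∈ sSup c a ↔ ∃ S : c, x ∈ S.1 a := fun a x => by
      rw [sSup_apply]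
      exact Submodule.mem_iSup_of_directed _ fun S T =>
        (ch.directedOn.directed_val S T).imp fun U hU => ⟨hU.1 a, hU.2 a⟩
    refine ⟨sSup c, ⟨fun a b f x hx => ?_, funext fun a => eq_bot_iff.mpr fun x hx => ?_⟩,
      fun z hz => le_sSup hz⟩
    · exact (m _ _).mpr (((m _ _).mp hx).imp fun S hS => (hc S.2).1 a b f x hS)
    · obtain ⟨S, hS⟩ := (m _ _).mp hx.2
      exact (congrFun (hc S.2).2 a).le ⟨hx.1, hS⟩) B ⟨hB, h⟩
  exact ⟨C, h1, h2.1.1, h2.1.2, fun D a b c => h2.2 ⟨a, c⟩ b⟩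

lemma unif [Injective V] (hI : IsIndecomposable V) (A B : ∀ a, Submodule k (V.obj a)) (hA : IsSub V A)
    (hB : IsSub V B) (h : A ⊓ B = ⊥) : A = ⊥ ∨ B = ⊥ := by
  obtain ⟨C, c1, c2, c3, c4⟩ := mx A B hB h
  obtain ⟨D, d1, d2, d3, d4⟩ := mx C A hA ((inf_comm _ _).trans c3)
  let X : FI ⥤ ModuleCat.{v} k :=
    { obj a := .of k (C a)
      map f := ModuleCat.ofHom ((V.map f).hom.restrict (c2 _ _ f))
      map_id a := by ext; simp
      map_comp f g := by ext; simp }
  let Y : FI ⥤ ModuleCat.{v} k :=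
    { obj a := .of k (V.obj a ⧸ D a)
      map f := ModuleCat.ofHom ((D _).mapQ (D _) (V.map f).hom (d2 _ _ f))
      map_id a := by ext; simp
      map_comp f g := by ext; simp }
  let i : X ⟶ V := { app a := ModuleCat.ofHom (C a).subtype }
  let j : X ⟶ Y := { app a := ModuleCat.ofHom ((D a).mkQ ∘ₗ (C a).subtype) }
  have : ∀ a, Mono (j.app a) := fun a => (ModuleCat.mono_iff_injective _).mpr
    ((injective_iff_map_eq_zero _).mpr fun x hx => Subtype.ext ((congrFun d3 a).le
      ⟨x.2, (Submodule.Quotient.mk_eq_zero _).mp hx⟩))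
  have := NatTrans.mono_of_mono_app j
  let e := fun a => ((Injective.factorThru i j).app a).hom ∘ₗ (D a).mkQ
  have e1 : ∀ a, ∀ x ∈ C a, e a x = x := fun a x hx =>
    congrArg (fun t : X ⟶ V => (t.app a).hom ⟨x, hx⟩) (Injective.comp_factorThru i j)
  have e2 : ∀ a, ∀ x ∈ D a, e a x = 0 := fun a x hx =>
    (congrArg ((Injective.factorThru i j).app a).hom
      ((Submodule.Quotient.mk_eq_zero _).mpr hx)).trans (map_zero _)
  have e3 : ∀ a b (f : a ⟶ b) x, e b ((V.map f).hom x) = (V.map f).hom (e a x) := fun a b f x =>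
    congrArg (fun t : Y.obj a ⟶ V.obj b => t.hom ((D a).mkQ x))
      ((Injective.factorThru i j).naturality f)
  have e4 := d4 (fun a => (A a).comap (e a)) (fun a b f x hx => by
    rw [Submodule.mem_comap, e3]; exact hA _ _ f _ hx) (fun a x hx => by simp [e2 a x hx])
    (funext fun a => eq_bot_iff.mpr fun x hx => (congrFun c3 a).le ⟨e1 a x hx.1 ▸ hx.2, hx.1⟩)
  have e5 := c4 (fun a => LinearMap.range (e a)) (by
    rintro a b f _ ⟨x, rfl⟩; exact ⟨_, e3 a b f x⟩) (fun a x hx => ⟨x, e1 a x hx⟩)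
    (funext fun a => eq_bot_iff.mpr (by rintro _ ⟨h, x, rfl⟩; exact e2 a x (e4 a h)))
  rcases hI.2 C (fun a => LinearMap.ker (e a)) c2 (fun a b f x hx => by
    rw [LinearMap.mem_ker, e3, hx, map_zero]) (fun a => ⟨Submodule.disjoint_def.mpr fun x a1 a2 =>
      (e1 a x a1).symm.trans a2, codisjoint_iff.mpr (eq_top_iff.mpr fun x _ => Submodule.mem_sup.mpr
        ⟨_, e5 a ⟨x, rfl⟩, x - e a x, by simp [e1 a _ (e5 a ⟨x, rfl⟩)], by simp⟩)⟩) with h | h
  · exact Or.inr (eq_bot_iff.mpr (h ▸ c1))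
  · exact Or.inl (eq_bot_iff.mpr fun a x hx => (congrFun h a).le (e2 a x (d1 a hx)))

theorem indec_fud [Injective V] (hI : IsIndecomposable V) : FiniteUniformDim V := by
  intro A hA h0
  refine ⟨1, fun h => ?_⟩
  have h1 : (⨆ j < 1, A j) = A 0 := by
    simp
  rw [h1] at h
  rcases unif hI _ _ (hA 1) (hA 0) h with h | h
  · exact h0 1 h
  · exact h0 0 h

/-- the prime ideal of a torsion-free indecomposable injective FI-module -/
theorem matlis [IsNoetherianRing k] [Injective V] (tf : TorsionFree V) (hI : IsIndecomposable V) :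
    ∃ p : Ideal k, p.IsPrime ∧ ∀ n : ℕ,
      (∀ c, c ∉ p → Bijective fun x : V.obj ⟨n⟩ => c • x) ∧
      ∀ x : V.obj ⟨n⟩, ∃ m, ∀ c ∈ p ^ m, c • x = 0 := by
  obtain ⟨J, _, _, _, _, c, hc, hsupp, hs, hA⟩ := tame_of V tf
  have ht : ∀ x : J, ∃ m, Supp k m x := fun y => by
    obtain ⟨m, x, rfl⟩ := hs y
    exact ⟨m, hsupp m x⟩
  let S : Submodule (R k) J → ∀ a : FI, Submodule k (V.obj a) := fun A a =>
    (A.restrictScalars k).comap (c a.n)
  have hS0 : ∀ A, S A = ⊥ → A = ⊥ := fun A h => eq_bot_iff.mpr fun y hy => by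
    obtain ⟨n, x, rfl⟩ := hs y
    rw [show x = 0 from (congrFun h ⟨n⟩).le hy, map_zero]; exact Submodule.zero_mem _
  have huni : ∀ A B : Submodule (R k) J, A ⊓ B = ⊥ → A = ⊥ ∨ B = ⊥ := by
    intro A B h
    refine (unif hI (S A) (S B) (hA A) (hA B) ?_).imp (hS0 A) (hS0 B)
    refine eq_bot_iff.mpr fun a x hx => ?_
    have h1 : c a.n x ∈ A ⊓ B := ⟨hx.1, hx.2⟩
    rw [h] at h1
    have h2 : c a.n x = 0 := (Submodule.mem_bot (R k)).mp h1
    exact (Submodule.mem_bot k).mpr (hc a.n (h2.trans (map_zero _).symm))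
  obtain ⟨a0, x0, hx0⟩ : ∃ (a : FI) (x : V.obj a), x ≠ 0 := by
    obtain ⟨a, ha⟩ := hI.1
    exact ⟨a, exists_ne 0⟩
  have hj0 : c a0.n x0 ≠ 0 := fun h => hx0 (hc a0.n (h.trans (map_zero _).symm))
  let K : k → Submodule (R k) J := fun d => LinearMap.ker (d • (LinearMap.id : J →ₗ[R k] J))
  have hK : ∀ d y, y ∈ K d ↔ d • y = 0 := fun d y => Iff.rfl
  let p : Ideal k :=
    { carrier := {d | ∃ z : J, z ≠ 0 ∧ d • z = 0}
      add_mem' := by
        rintro d e ⟨z, hz, hdz⟩ ⟨w, hw, hew⟩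
        have h1 : K d ⊓ K e ≠ ⊥ := fun h => by
          rcases huni _ _ h with h | h
          · have : z ∈ K d := hdz
            rw [h] at this
            exact hz ((Submodule.mem_bot (R k)).mp this)
          · have : w ∈ K e := hew
            rw [h] at this
            exact hw ((Submodule.mem_bot (R k)).mp this)
        obtain ⟨y, hy, hy0⟩ := (Submodule.ne_bot_iff _).mp h1
        refine ⟨y, hy0, ?_⟩
        rw [add_smul, (hK d y).mp hy.1, (hK e y).mp hy.2, add_zero]
      zero_mem' := ⟨_, hj0, zero_smul _ _⟩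
      smul_mem' := by
        rintro d e ⟨z, hz, hez⟩
        exact ⟨z, hz, by rw [smul_eq_mul, mul_smul, hez, smul_zero]⟩ }
  have hpm : ∀ d, d ∈ p ↔ ∃ z : J, z ≠ 0 ∧ d • z = 0 := fun d => Iff.rfl
  have hp : p.IsPrime := by
    refine ⟨fun h => ?_, fun {d e} hde => ?_⟩
    · obtain ⟨z, hz, h1⟩ := (hpm 1).mp (h ▸ Submodule.mem_top)
      rw [one_smul] at h1
      exact hz h1
    · obtain ⟨z, hz, h1⟩ := (hpm _).mp hde
      by_cases h2 : e • z = 0
      · exact Or.inr ((hpm e).mpr ⟨z, hz, h2⟩)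
      · exact Or.inl ((hpm d).mpr ⟨e • z, h2, by rw [← mul_smul]; exact h1⟩)
  refine ⟨p, hp, fun n => ⟨fun d hd => ?_, fun x => ?_⟩⟩
  · have hinjJ : ∀ y : J, d • y = 0 → y = 0 := fun y hy => by
      by_contra h
      exact hd ((hpm d).mpr ⟨y, h, hy⟩)
    have hinj : ∀ (a : FI) (x : V.obj a), d • x = 0 → x = 0 := fun a x hx => by
      apply hc a.n
      rw [map_zero]
      apply hinjJ
      rw [← map_smul, hx, map_zero]
    let dV : V ⟶ V := { app a := ModuleCat.ofHom (d • LinearMap.id) }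
    have hdV : ∀ a (x : V.obj a), (dV.app a).hom x = d • x := fun a x => rfl
    have : ∀ a, Mono (dV.app a) := fun a => (ModuleCat.mono_iff_injective _).mpr
      ((injective_iff_map_eq_zero _).mpr fun x hx => hinj a x hx)
    have := NatTrans.mono_of_mono_app dV
    let r : V ⟶ V := Injective.factorThru (𝟙 V) dV
    have hr : ∀ a (x : V.obj a), (r.app a).hom (d • x) = x := fun a x =>
      congrArg (fun t : V ⟶ V => (t.app a).hom x) (Injective.comp_factorThru (𝟙 V) dV)
    have hrn : ∀ a b (f : a ⟶ b) x, (r.app b).hom ((V.map f).hom x) =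
        (V.map f).hom ((r.app a).hom x) := fun a b f x =>
      congrArg (fun t : V.obj a ⟶ V.obj b => t.hom x) (r.naturality f)
    rcases hI.2 (fun a => LinearMap.range (d • (LinearMap.id : V.obj a →ₗ[k] V.obj a)))
      (fun a => LinearMap.ker (r.app a).hom) (by
        rintro a b f _ ⟨x, rfl⟩
        exact ⟨(V.map f).hom x, (map_smul (V.map f).hom d x).symm⟩)
      (fun a b f x hx => by
        rw [LinearMap.mem_ker] at hx ⊢
        rw [hrn, hx, map_zero])
      (fun a => ⟨Submodule.disjoint_def.mpr (by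
        rintro _ ⟨x, rfl⟩ h2
        have h3 : (r.app a).hom (d • x) = 0 := h2
        rw [hr] at h3
        subst h3
        exact map_zero _), codisjoint_iff.mpr (eq_top_iff.mpr fun x _ =>
        Submodule.mem_sup.mpr ⟨d • (r.app a).hom x, ⟨_, rfl⟩, x - d • (r.app a).hom x, by
          rw [LinearMap.mem_ker, map_sub, hr, sub_self], by abel⟩)⟩) with h | h
    · exfalso
      apply hx0
      apply hinj a0
      have h1 : d • x0 ∈ LinearMap.range (d • (LinearMap.id : V.obj a0 →ₗ[k] V.obj a0)) :=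
        ⟨x0, rfl⟩
      exact (Submodule.mem_bot k).mp ((congrFun h a0).le h1)
    · refine ⟨(injective_iff_map_eq_zero (d • (LinearMap.id : V.obj ⟨n⟩ →ₗ[k] V.obj ⟨n⟩))).mpr
        fun x hx => hinj ⟨n⟩ x hx, fun x => ⟨(r.app ⟨n⟩).hom x, ?_⟩⟩
      have h1 : x - d • (r.app ⟨n⟩).hom x ∈ LinearMap.ker (r.app ⟨n⟩).hom := by
        rw [LinearMap.mem_ker, map_sub, hr, sub_self]
      have h2 := (Submodule.mem_bot k).mp ((congrFun h ⟨n⟩).le h1)
      exact (sub_eq_zero.mp h2).symm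
  · let I : Ideal k := LinearMap.ker (LinearMap.toSpanSingleton k J (c n x))
    have hI' : ∀ d, d ∈ I ↔ d • c n x = 0 := fun d => by simp [I]
    have hle : p ≤ I.radical := fun d hd => by
      obtain ⟨z, hz, hdz⟩ := (hpm d).mp hd
      obtain ⟨m, hm⟩ := nilp ht huni d z hz hdz (c n x)
      exact ⟨m, (hI' _).mpr hm⟩
    obtain ⟨m, hm⟩ := Ideal.exists_radical_pow_le_of_fg I (IsNoetherian.noetherian _)
    refine ⟨m, fun d hd => hc n ?_⟩
    rw [map_smul, map_zero]
    exact (hI' d).mp (hm (Ideal.pow_right_mono hle m hd))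

end Pool.Agent.H23.FI
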