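import Pool.Agent.H23.FI.TameB

set_option autoImplicit false

/-!
# Tame modules of finite uniform dimension over commutative Noetherian rings: finitely many primes
-/

namespace Pool.Agent.H23.FI

open Function Submodule

universe u w

variable {k : Type u} [CommRing k]

section
variable {J : Type w} [AddCommGroup J] [Module (R k) J] [Module k J] [IsScalarTower k (R k) J]

lemma span_noeth [IsNoetherianRing k] {y : J} {m : ℕ} (hy : Supp k m y) :
    IsNoetherian (R k) (span (R k) {y}) := by
  refine Gen.noeth (n := m) ⟨1, fun _ => ⟨y, mem_span_singleton_self y⟩,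
    fun _ f g e => Subtype.ext (hy f g e), ?_⟩
  rw [Set.range_const, eq_top_iff]
  rintro ⟨x, hx⟩ _
  obtain ⟨r, rfl⟩ := mem_span_singleton.mp hx
  exact mem_span_singleton.mpr ⟨r, rfl⟩

/-- one element outside `p` kills all the elements of a Noetherian submodule which are killed by
some element outside `p` -/
lemma kill (p : Ideal k) [hp : p.IsPrime] (N : Submodule (R k) J) (hN : IsNoetherian (R k) N) :
    ∃ c, c ∉ p ∧ ∀ x ∈ N, (∃ d, d ∉ p ∧ d • x = 0) → c • x = 0 := by
  classical
  let K0 : Submodule k J :=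
    { carrier := {x | x ∈ N ∧ ∃ d, d ∉ p ∧ d • x = 0}
      add_mem' := by
        rintro a b ⟨ha, d, hd, hda⟩ ⟨hb, e, he, heb⟩
        refine ⟨N.add_mem ha hb, d * e, fun h => (hp.mem_or_mem h).elim hd he, ?_⟩
        rw [smul_add, mul_comm, mul_smul, hda, smul_zero, mul_comm, mul_smul, heb, smul_zero,
          add_zero]
      zero_mem' := ⟨N.zero_mem, 1, fun h => hp.ne_top ((Ideal.eq_top_iff_one p).mpr h), smul_zero _⟩
      smul_mem' := by
        rintro c x ⟨hx, d, hd, hdx⟩
        exact ⟨N.smul_of_tower_mem c hx, d, hd, by rw [smul_comm, hdx, smul_zero]⟩ }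
  let K : Submodule (R k) J := mkR K0 (by
    rintro f x ⟨hx, d, hd, hdx⟩
    exact ⟨N.smul_mem _ hx, d, hd, by rw [← osm, hdx, smul_zero]⟩)
  have hK : ∀ x, x ∈ K ↔ x ∈ N ∧ ∃ d, d ∉ p ∧ d • x = 0 := fun x => Iff.rfl
  obtain ⟨s, hs⟩ := (isNoetherian_submodule.mp hN) K (fun x hx => ((hK x).mp hx).1)
  have h1 : ∀ t : Finset J, (∀ x ∈ t, ∃ d, d ∉ p ∧ d • x = 0) →
      ∃ c, c ∉ p ∧ ∀ x ∈ t, c • x = 0 := by
    intro t
    induction t using Finset.induction_on with
    | empty => exact fun _ => ⟨1, fun h => hp.ne_top ((Ideal.eq_top_iff_one p).mpr h), by simp⟩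
    | insert a t _ ih =>
      intro h
      obtain ⟨c, hc, hct⟩ := ih fun x hx => h x (Finset.mem_insert_of_mem hx)
      obtain ⟨d, hd, hda⟩ := h a (Finset.mem_insert_self _ _)
      refine ⟨c * d, fun h => (hp.mem_or_mem h).elim hc hd, fun x hx => ?_⟩
      rcases Finset.mem_insert.mp hx with rfl | hx
      · rw [mul_smul, hda, smul_zero]
      · rw [mul_comm, mul_smul, hct x hx, smul_zero]
  obtain ⟨c, hc, hcs⟩ := h1 s fun x hx => ((hK x).mp (hs ▸ subset_span hx)).2
  refine ⟨c, hc, fun x hx hd => ?_⟩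
  have hxK : x ∈ K := (hK x).mpr ⟨hx, hd⟩
  rw [← hs] at hxK
  have h2 : span (R k) (s : Set J) ≤ LinearMap.ker (c • (LinearMap.id : J →ₗ[R k] J)) :=
    span_le.mpr fun y hy => by
      show c • y = 0
      exact hcs y hy
  exact h2 hxK

/-- an element with the annihilator `p` generates a submodule which contains a nonzero submodule
all of whose nonzero elements have the annihilator `p` -/
lemma good_sub [IsNoetherianRing k] (ht : ∀ x : J, ∃ m, Supp k m x) (p : Ideal k)
    [hp : p.IsPrime] (y : J) (hy0 : ∀ c ∈ p, c • y = 0) (hy1 : ∀ c, c ∉ p → c • y ≠ 0) :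
    ∃ A : Submodule (R k) J, A ≠ ⊥ ∧ A ≤ span (R k) {y} ∧
      ∀ x ∈ A, x ≠ 0 → ∀ c : k, c • x = 0 ↔ c ∈ p := by
  obtain ⟨m, hm⟩ := ht y
  obtain ⟨c0, hc0, hk⟩ := kill p _ (span_noeth hm)
  let φ : J →ₗ[R k] J := c0 • LinearMap.id
  have hφ : ∀ x, φ x = c0 • x := fun x => rfl
  refine ⟨(span (R k) {y}).map φ, fun h => ?_, ?_, ?_⟩
  · have h1 : φ y ∈ (span (R k) {y}).map φ := mem_map_of_mem (mem_span_singleton_self y)
    rw [h] at h1
    exact hy1 c0 hc0 ((Submodule.mem_bot _).mp h1)
  · rintro _ ⟨x, hx, rfl⟩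
    exact Submodule.smul_of_tower_mem _ c0 hx
  · rintro _ ⟨z, hz, rfl⟩ hne c
    have hz' : z ∈ span (R k) {y} := hz
    constructor
    · intro hc
      by_contra hcp
      apply hne
      refine hk z hz' ⟨c * c0, fun h => (hp.mem_or_mem h).elim hcp hc0, ?_⟩
      rw [mul_smul]
      exact hc
    · intro hc
      obtain ⟨r, rfl⟩ := mem_span_singleton.mp hz'
      show c • c0 • r • y = 0
      have : c • r • y = r • c • y := (smul_comm _ _ _)
      rw [smul_comm, this, hy0 c hc, smul_zero, smul_zero]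

/-- elements with pairwise different prime annihilators: there are only finitely many primes -/
lemma no_distinct [IsNoetherianRing k] (ht : ∀ x : J, ∃ m, Supp k m x) (hu : FinUDim k J)
    (p : ℕ → Ideal k) (hp : ∀ i, (p i).IsPrime) (hinj : Injective p) (y : ℕ → J)
    (hy : ∀ i c, c • y i = 0 ↔ c ∈ p i) : False := by
  have h1 : ∀ i, ∃ A : Submodule (R k) J, A ≠ ⊥ ∧ A ≤ span (R k) {y i} ∧
      ∀ x ∈ A, x ≠ 0 → ∀ c : k, c • x = 0 ↔ c ∈ p i := fun i => by
    have := hp i
    exact good_sub ht (p i) (y i) (fun c hc => (hy i c).mpr hc) fun c hc h => hc ((hy i c).mp h)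
  choose A hA0 _ hA using h1
  have key : ∀ n, ∀ x ∈ ⨆ j < n, A j, x ≠ 0 → ∀ P : Ideal k, P.IsPrime →
      (∀ c : k, c • x = 0 ↔ c ∈ P) → ∃ j < n, P = p j := by
    intro n
    induction n with
    | zero =>
      intro x hx hx0
      simp at hx
      exact absurd hx hx0
    | succ n ih =>
      intro x hx hx0 P hP hann
      rw [Nat.iSup_lt_succ] at hx
      obtain ⟨a, ha, b, hb, rfl⟩ := mem_sup.mp hx
      by_cases hb0 : b = 0
      · subst hb0
        rw [add_zero] at hx0 hann
        obtain ⟨j, hj, e⟩ := ih a ha hx0 P hP hann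
        exact ⟨j, by omega, e⟩
      by_cases hPn : p n ≤ P
      · by_cases heq : P = p n
        · exact ⟨n, by omega, heq⟩
        exfalso
        obtain ⟨c, hcP, hcn⟩ : ∃ c, c ∈ P ∧ c ∉ p n := by
          by_contra hcon
          push Not at hcon
          exact heq (le_antisymm hcon hPn)
        have h1 : c • (a + b) = 0 := (hann c).mpr hcP
        have h2 : c • b ≠ 0 := fun h => hcn ((hA n b hb hb0 c).mp h)
        have h3 : c • b ∈ ⨆ j < n, A j := by
          have : c • b = -(c • a) := by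
            rw [smul_add] at h1
            exact eq_neg_of_add_eq_zero_right h1
          rw [this]
          exact neg_mem (Submodule.smul_of_tower_mem _ c ha)
        obtain ⟨j, hj, e⟩ := ih _ h3 h2 (p n) (hp n)
          (hA n _ (Submodule.smul_of_tower_mem _ c hb) h2)
        have := hinj e
        omega
      · obtain ⟨c, hcn, hcP⟩ : ∃ c, c ∈ p n ∧ c ∉ P := by
          by_contra hcon
          push Not at hcon
          exact hPn hcon
        have h1 : c • b = 0 := (hA n b hb hb0 c).mpr hcn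
        have h2 : c • a = c • (a + b) := by rw [smul_add, h1, add_zero]
        have h3 : c • a ≠ 0 := by
          rw [h2]
          exact fun h => hcP ((hann c).mp h)
        obtain ⟨j, hj, e⟩ := ih _ (Submodule.smul_of_tower_mem _ c ha) h3 P hP (fun d => by
          rw [h2, ← mul_smul, hann]
          exact ⟨fun h => (hP.mem_or_mem h).resolve_right hcP, fun h => P.mul_mem_right _ h⟩)
        exact ⟨j, by omega, e⟩
  obtain ⟨i, hi⟩ := hu A hA0
  obtain ⟨x, hx, hx0⟩ := (Submodule.ne_bot_iff _).mp hi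
  obtain ⟨j, hj, e⟩ := key i x hx.2 hx0 (p i) (hp i) (hA i x hx.1 hx0)
  have := hinj e
  omega

end

end Pool.Agent.H23.FI
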