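import Mathlib

set_option autoImplicit false

namespace Pool.Agent.H23.FI

open Function Submodule

def M := ℕ ↪ ℕ

instance : Monoid M where
  mul f g := g.trans f
  one := Embedding.refl ℕ
  mul_assoc _ _ _ := rfl
  one_mul _ := rfl
  mul_one _ := rfl

instance : CoeFun M fun _ => ℕ → ℕ := ⟨fun f => f.toFun⟩

lemma M.inj (f : M) : Injective f := f.inj'
@[simp] lemma mul_ap (f g : M) (i : ℕ) : (f * g) i = f (g i) := rfl
@[simp] lemma one_ap (i : ℕ) : (1 : M) i = i := rfl
lemma M.ext {f g : M} (h : ∀ i, f i = g i) : f = g := Embedding.ext h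

def patch (f : ℕ → ℕ) (m K : ℕ) (hf : ∀ i < m, ∀ j < m, f i = f j → i = j) (h : ∀ j < m, f j < K) : M :=
  ⟨fun j => if j < m then f j else j + K, fun i j e => by
    dsimp only at e
    split_ifs at e with a b b
    · exact hf i a j b e
    · have := h i a; omega
    · have := h j b; omega
    · omega⟩

lemma bnd (f : ℕ → ℕ) (m : ℕ) : ∃ K, m < K ∧ ∀ j < m, f j < K :=
  ⟨m + ∑ j ∈ Finset.range m, f j + 1, by omega, fun j hj => by
    have := Finset.single_le_sum (f := f) (fun _ _ => Nat.zero_le _) (Finset.mem_range.mpr hj)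
    omega⟩

def sg : M := ⟨(· + 1), add_left_injective 1⟩

def up : M →* M where
  toFun f := ⟨fun i => Nat.casesOn i 0 fun j => f j + 1, fun i j e => by
    cases i <;> cases j <;> simp_all⟩
  map_one' := M.ext fun i => by cases i <;> rfl
  map_mul' f g := M.ext fun i => by cases i <;> rfl

lemma up_sg (f : M) : up f * sg = sg * f := rfl

abbrev R (k : Type*) [CommRing k] := MonoidAlgebra k M

universe u w

variable {k : Type u} [CommRing k]

noncomputable def o (k : Type u) [CommRing k] (f : M) : R k := MonoidAlgebra.of k M f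

section
variable {W : Type w} [AddCommGroup W] [Module (R k) W]

lemma oo (f g : M) (x : W) : o k f • o k g • x = o k (f * g) • x := by
  rw [o, o, o, map_mul, mul_smul]

lemma o1 (x : W) : o k 1 • x = x := by rw [o, map_one, one_smul]

variable (k) in
def Supp (n : ℕ) (x : W) : Prop := ∀ f g : M, (∀ i < n, f i = g i) → o k f • x = o k g • x

lemma Supp.mono {n m : ℕ} {x : W} (h : Supp k n x) (l : n ≤ m) : Supp k m x :=
  fun f g e => h f g fun i hi => e i (hi.trans_le l)

lemma Supp.act {n m : ℕ} {x : W} (h : Supp k n x) (f : M) (l : ∀ i < n, f i < m) :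
    Supp k m (o k f • x) := fun a b e => by
  rw [oo, oo]; exact h _ _ fun i hi => e _ (l i hi)

lemma Supp.map {V : Type*} [AddCommGroup V] [Module (R k) V] {n : ℕ} {x : W} (h : Supp k n x)
    (φ : W →ₗ[R k] V) : Supp k n (φ x) := fun a b e => by
  rw [← map_smul, ← map_smul, h a b e]

lemma Supp.cancel {n : ℕ} {x : W} (h : Supp k n x) : ∃ t, o k t • o k sg • x = x := by
  refine ⟨patch (fun j => Nat.casesOn j n id) (n + 1) (n + 1) (fun i a j b e => ?_)
    fun j a => ?_, ?_⟩
  · cases i <;> cases j <;> simp at e ⊢ <;> omega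
  · cases j <;> simp <;> omega
  · rw [oo]; exact (h _ 1 fun i hi => if_pos (Nat.succ_lt_succ hi)).trans (o1 x)

lemma Supp.triv {n : ℕ} {x y : W} (h : Supp k n x) (e : x = o k (sg ^ n) • y) (f : M) :
    o k f • x = x := by
  obtain ⟨K, h1, h2⟩ := bnd f n
  have s : ∀ m i, (sg ^ m) i = i + m := fun m => by
    induction m with
    | zero => exact fun i => rfl
    | succ m ih => exact fun i => by rw [pow_succ', mul_ap, ih]; rfl
  rw [h f (patch f n K (fun i _ j _ e => f.inj e) h2) fun i hi => (if_pos hi).symm]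
  refine Eq.trans ?_ ((h (patch id n K (fun i _ j _ e => e) fun j hj => hj.trans h1) 1
    fun i hi => if_pos hi).trans (o1 x))
  rw [e, oo, oo]
  congr 2
  exact M.ext fun i => by simp [s, patch]

variable [Module k W] [IsScalarTower k (R k) W]

def mkR (A : Submodule k W) (h : ∀ f, ∀ x ∈ A, o k f • x ∈ A) : Submodule (R k) W where
  toAddSubmonoid := A.toAddSubmonoid
  smul_mem' r x hx := by
    induction r using MonoidAlgebra.induction_on with
    | of m => exact h m x hx
    | add a b ha hb => rw [add_smul]; exact A.add_mem ha hb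
    | smul c a ha => rw [smul_assoc]; exact A.smul_mem c ha

lemma osm (f : M) (c : k) (x : W) : o k f • c • x = c • o k f • x := smul_comm _ _ _

lemma gen_ind {X : Set W} (A : Submodule k W) (h : ∀ f, ∀ x ∈ X, o k f • x ∈ A) :
    ∀ x ∈ span (R k) X, x ∈ A := fun x hx =>
  (span_le (p := mkR (A ⊓ ⨅ f, A.comap (DistribSMul.toLinearMap k W (o k f))) fun f x hx =>
    ⟨(mem_iInf _).mp hx.2 f, (mem_iInf _).mpr fun g => by
      simpa only [mem_comap, DistribSMul.toLinearMap_apply, oo] using
        (mem_iInf _).mp hx.2 (g * f)⟩)).mpr (fun x hx => ⟨o1 (k := k) x ▸ h 1 x hx,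
      (mem_iInf _).mpr fun f => h f x hx⟩) hx |>.1

variable (k W) in
def sub (n : ℕ) : Submodule k W where
  carrier := {x | Supp k n x}
  add_mem' a b f g e := by rw [smul_add, smul_add, a f g e, b f g e]
  zero_mem' f g _ := by simp
  smul_mem' c x a f g e := by rw [osm, osm, a f g e]

variable (k W) in
def Gen (n : ℕ) : Prop := ∃ (r : ℕ) (X : Fin r → W), (∀ i, Supp k n (X i)) ∧
  span (R k) (Set.range X) = ⊤

lemma Gen.tame {n : ℕ} (h : Gen k W n) (x : W) : ∃ m, Supp k m x := by
  obtain ⟨r, X, h1, h2⟩ := h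
  have mo : Monotone (sub k W) := fun a b l x hx => Supp.mono hx l
  refine (mem_iSup_of_directed _ mo.directed_le).mp (gen_ind _ ?_ x (h2 ▸ mem_top))
  rintro f _ ⟨i, rfl⟩
  obtain ⟨K, -, hK⟩ := bnd f n
  exact mem_iSup_of_mem K ((h1 i).act f hK)

lemma wqo (r n : ℕ) (s : ℕ → Fin r × (Fin n → ℕ)) : ∃ a b, a < b ∧ (s a).1 = (s b).1 ∧
    ∃ f : ℕ ↪o ℕ, f ∘ (s a).2 = (s b).2 := by
  let w : Fin r × (Fin n → ℕ) → List (Fin r × (Fin n → Bool)) := fun m =>
    (List.range (Finset.univ.sup m.2 + 1)).map fun j => (m.1, fun i => decide (m.2 i = j))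
  obtain ⟨a, b, h, e⟩ := Set.partiallyWellOrderedOn_iff_exists_lt.mp
    (Set.finite_univ.partiallyWellOrderedOn (r := Eq)).partiallyWellOrderedOn_sublistForall₂
    (fun a => w (s a)) fun _ _ _ => trivial
  simp only [List.sublistForall₂_iff, List.forall₂_eq_eq_eq, exists_eq_left'] at e
  obtain ⟨f, hf⟩ := List.sublist_iff_exists_orderEmbedding_getElem?_eq.mp e
  have key : ∀ j ≤ Finset.univ.sup (s a).2, ((s a).1, fun i => decide ((s a).2 i = j)) =
      ((s b).1, fun i => decide ((s b).2 i = f j)) := fun j hj => by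
    have := hf j
    simp only [w, List.getElem?_map, List.getElem?_range (Nat.lt_succ_of_le hj)] at this
    by_cases c : f j < Finset.univ.sup (s b).2 + 1
    · simpa [List.getElem?_range c] using this
    · simp [List.getElem?_eq_none (show (List.range _).length ≤ f j from
        List.length_range.trans_le (not_lt.mp c))] at this
  refine ⟨a, b, h, (Prod.ext_iff.mp (key 0 (Nat.zero_le _))).1, f, funext fun i => ?_⟩
  have := congrFun (congrArg Prod.snd (key _ (Finset.le_sup (Finset.mem_univ i)))) i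
  simpa [eq_comm] using this

/-- for an ideal-valued function which increases along a well-quasi-order finitely many values are enough -/
lemma fin_ideals [IsNoetherianRing k] {α : Type*} (rel : α → α → Prop) [IsPreorder α rel]
    (hw : WellQuasiOrdered rel) (L : α → Ideal k) (hL : ∀ a b, rel a b → L a ≤ L b) :
    ∃ s : Finset α, ∀ y, ∃ x ∈ s, rel x y ∧ L x = L y := by
  by_contra c
  push Not at c
  obtain ⟨q, -, hq⟩ := exists_seq_of_forall_finset_exists (fun _ : α => True)
    (fun x y => rel x y → L x ≠ L y) (fun s _ => by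
      obtain ⟨y, hy⟩ := c s
      exact ⟨y, trivial, fun x hx => hy x hx⟩)
  obtain ⟨g, hg⟩ := hw.exists_monotone_subseq q
  obtain ⟨N, hN⟩ := monotone_stabilizes_iff_noetherian.mpr (inferInstance : IsNoetherian k k)
    ⟨fun i => L (q (g i)), fun i j hij => hL _ _ (hg i j hij)⟩
  exact hq (g N) (g (N + 1)) (g.strictMono (Nat.lt_succ_self N)) (hg _ _ (Nat.le_succ N))
    (hN (N + 1) (Nat.le_succ N))

theorem Gen.noeth [IsNoetherianRing k] {n : ℕ} (h : Gen k W n) : IsNoetherian (R k) W := by
  classical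
  obtain ⟨r, X, h1, h2⟩ := h
  let ι := Fin r ×ₗ Lex (Fin n → ℕ)
  let v : ι → W := fun m => if c : ∃ g : M, ∀ i : Fin n, g i = m.2 i then o k c.choose • X m.1 else 0
  have hv : ∀ (g : M) j, v (j, fun i => g i) = o k g • X j := fun g j => by
    have c : ∃ g' : M, ∀ i : Fin n, g' i = g i := ⟨g, fun _ => rfl⟩
    exact (dif_pos c).trans (h1 j _ _ fun i hi => c.choose_spec ⟨i, hi⟩)
  let t : (ℕ ↪o ℕ) → ι → ι := fun f m => (m.1, f ∘ m.2)
  have tv : ∀ f m, v (t f m) = o k f.toEmbedding • v m := fun f m => by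
    by_cases c : ∃ g : M, ∀ i : Fin n, g i = m.2 i
    · obtain ⟨g, hg⟩ := c
      have e : m = (m.1, fun i : Fin n => g i) := Prod.ext rfl (funext hg).symm
      rw [e, hv, oo, ← hv]; rfl
    · rw [show v m = 0 from dif_neg c, smul_zero]
      refine dif_neg fun ⟨g, hg⟩ => c ?_
      let e : ℕ → ℕ := fun i => if h : i < n then m.2 ⟨i, h⟩ else 0
      obtain ⟨K, -, hK⟩ := bnd e n
      refine ⟨patch e n K (fun i a j b q => g.inj ?_) hK, fun i => by simp [patch, e]⟩
      simp only [e, a, b, dif_pos] at q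
      exact (hg ⟨i, a⟩).trans ((congrArg f q).trans (hg ⟨j, b⟩).symm)
  have tm : ∀ f, StrictMono (t f) := fun f a b h => by
    rcases Prod.Lex.lt_iff.mp h with h | ⟨h, i, h3, h4⟩
    · exact Prod.Lex.lt_iff.mpr (Or.inl h)
    · exact Prod.Lex.lt_iff.mpr (Or.inr ⟨h, i, fun j hj => congrArg f (h3 j hj), f.strictMono h4⟩)
  let π := Finsupp.linearCombination k v
  have e0 : ∀ f (p : ι →₀ k), π (p.mapDomain (t f)) = o k f.toEmbedding • π p := fun f p => by
    rw [Finsupp.linearCombination_mapDomain, show v ∘ t f = DistribSMul.toLinearMap k W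
      (o k f.toEmbedding) ∘ v from funext (tv f), ← Finsupp.apply_linearCombination]; rfl
  refine ⟨fun A => ?_⟩
  -- the polynomials with support below `m` which represent elements of `A`
  let P : ι → Submodule k (ι →₀ k) := fun m =>
    (A.restrictScalars k).comap π ⊓ Finsupp.supported k k (Set.Iic m)
  let L : ι → Ideal k := fun m => (P m).map (Finsupp.lapply m)
  have hP : ∀ f m p, p ∈ P m → p.mapDomain (t f) ∈ P (t f m) := fun f m p hp => by
    refine ⟨?_, ?_⟩
    · show π (p.mapDomain (t f)) ∈ A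
      rw [e0]
      exact A.smul_mem _ hp.1
    · refine (Finsupp.mem_supported _ _).mpr fun y hy => ?_
      obtain ⟨z, hz, rfl⟩ := Finset.mem_image.mp (Finsupp.mapDomain_support hy)
      exact (tm f).monotone ((Finsupp.mem_supported _ _).mp hp.2 hz)
  let rel : ι → ι → Prop := fun a b => ∃ f, t f a = b
  have : IsPreorder ι rel :=
    { refl := fun a => ⟨RelEmbedding.refl _, rfl⟩
      trans := fun a b c ⟨f, hf⟩ ⟨g, hg⟩ => ⟨f.trans g, by rw [← hg, ← hf]; rfl⟩ }
  have hw : WellQuasiOrdered rel := fun q => by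
    obtain ⟨a, b, h, e, f, hf⟩ := wqo r n q
    exact ⟨a, b, h, f, Prod.ext e hf⟩
  obtain ⟨s, hs⟩ := fin_ideals rel hw L (by
    rintro a _ ⟨f, rfl⟩ c ⟨p, hp, rfl⟩
    exact ⟨_, hP f a p hp, Finsupp.mapDomain_apply (tm f).injective _ _⟩)
  -- finitely many elements of `P x` are enough for `L x`
  have hfg : ∀ x : ι, ∃ G : Finset (ι →₀ k), (∀ p ∈ G, p ∈ P x) ∧
      ∀ c ∈ L x, ∃ p ∈ span k (G : Set (ι →₀ k)), p x = c := fun x => by
    obtain ⟨S, hS⟩ := (IsNoetherian.noetherian (L x) : (L x).FG)
    have hl : ∀ c ∈ S, ∃ p ∈ P x, p x = c := fun c hc => by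
      have : c ∈ L x := hS ▸ subset_span hc
      exact this
    choose! l l1 l2 using hl
    refine ⟨S.image l, fun p hp => ?_, fun c hc => ?_⟩
    · obtain ⟨c, hc, rfl⟩ := Finset.mem_image.mp hp
      exact l1 c hc
    · rw [← hS] at hc
      have : c ∈ (span k ((S.image l : Finset (ι →₀ k)) : Set (ι →₀ k))).map
          (Finsupp.lapply (R := k) x) := by
        refine (span_le.mpr fun c hc => ?_) hc
        exact ⟨l c, subset_span (Finset.mem_coe.mpr (Finset.mem_image_of_mem _ hc)), l2 c hc⟩
      exact this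
  choose G G1 G2 using hfg
  refine ⟨s.biUnion fun x => (G x).image π, le_antisymm (span_le.mpr fun x hx => ?_) fun x hx => ?_⟩
  · obtain ⟨m, hm, hx⟩ := Finset.mem_biUnion.mp hx
    obtain ⟨p, hp, rfl⟩ := Finset.mem_image.mp hx
    exact (G1 m p hp).1
  obtain ⟨q, rfl⟩ : x ∈ LinearMap.range π := gen_ind _ (by
    rintro f _ ⟨j, rfl⟩
    exact ⟨Finsupp.single (j, fun i => f i) 1, by simpa [π] using hv f j⟩) x (h2 ▸ mem_top)
  set S := span (R k) ((s.biUnion fun x => (G x).image π : Finset W) : Set W)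
  have hG : ∀ x ∈ s, ∀ p ∈ span k (G x : Set (ι →₀ k)), π p ∈ S := fun x hx p hp => by
    refine (span_le (p := (S.restrictScalars k).comap π)).mpr (fun y hy => ?_) hp
    exact subset_span (Finset.mem_coe.mpr (Finset.mem_biUnion.mpr
      ⟨x, hx, Finset.mem_image_of_mem _ hy⟩))
  have key : ∀ m q, π q ∈ A → (∀ a ∈ q.support, a ≤ m) → π q ∈ S := fun m => by
    induction m using WellFoundedLT.induction with | ind m ih =>
    intro q hq hm
    have sm : ∀ q, π q ∈ A → (∀ a ∈ q.support, a ≤ m) → q m = 0 → π q ∈ S := fun q a b c => by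
      rcases q.support.eq_empty_or_nonempty with e | e
      · simp [Finsupp.support_eq_empty.mp e]
      · refine ih _ ((b _ (q.support.max'_mem e)).lt_of_ne fun k => ?_) q a (q.support.le_max' ·)
        exact Finsupp.mem_support_iff.mp (k ▸ q.support.max'_mem e) c
    obtain ⟨x, hx, ⟨f, rfl⟩, hLx⟩ := hs m
    obtain ⟨p, hp, hpx⟩ := G2 x (q (t f x)) (hLx ▸ ⟨q, ⟨hq, (Finsupp.mem_supported _ _).mpr
      fun a ha => hm a ha⟩, rfl⟩)
    have hpP : p ∈ P x := (span_le.mpr fun y hy => G1 x y hy) hp
    have := sm (q - p.mapDomain (t f)) (by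
      rw [map_sub]
      exact A.sub_mem hq (hP f x p hpP).1) (fun a ha => by
      rcases Finset.mem_union.mp (Finsupp.support_sub ha) with b | b
      · exact hm a b
      · exact (Finsupp.mem_supported _ _).mp (hP f x p hpP).2 b) (by
      rw [Finsupp.sub_apply, Finsupp.mapDomain_apply (tm f).injective, hpx, sub_self])
    rw [map_sub, e0] at this
    exact (S.sub_mem_iff_left (S.smul_mem _ (hG x hx p hp))).mp this
  rcases q.support.eq_empty_or_nonempty with e | e
  · simp [Finsupp.support_eq_empty.mp e]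
  · exact key (q.support.max' e) q hx fun a ha => q.support.le_max' a ha

lemma fin0 [IsNoetherian (R k) W] (A : Submodule (R k) W) : ∃ Y : Submodule k W, Y.FG ∧
    (∀ y ∈ Y, y ∈ A) ∧ ∀ B : Submodule k W, (∀ f, ∀ x ∈ A, o k f • x - x ∈ B) →
      ∀ x ∈ A, x ∈ B ⊔ Y := by
  obtain ⟨s, rfl⟩ := IsNoetherian.noetherian A
  refine ⟨span k s, fg_span s.finite_toSet, fun y hy => span_subset_span k _ _ hy,
    fun B h => gen_ind _ fun f x hx => ?_⟩
  rw [← sub_add_cancel (o k f • x) x]
  exact add_mem_sup (h f x (subset_span hx)) (subset_span hx)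

def Tw (_ : Type u) (W : Type w) := W

instance : AddCommGroup (Tw k W) := ‹AddCommGroup W›
instance : Module k (Tw k W) := ‹Module k W›
noncomputable instance : Module (R k) (Tw k W) :=
  Module.compHom W (MonoidAlgebra.mapDomainAlgHom k k up).toRingHom
instance : IsScalarTower k (R k) (Tw k W) := ⟨fun c r (x : W) => by
  show MonoidAlgebra.mapDomainAlgHom k k up (c • r) • x = c • MonoidAlgebra.mapDomainAlgHom k k up r • x
  rw [map_smul, smul_assoc]⟩

def tw : W ≃ₗ[k] Tw k W := LinearEquiv.refl k W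

lemma tw_o (f : M) (x : W) : o k f • tw (k := k) x = tw (k := k) (o k (up f) • x) := by
  show MonoidAlgebra.mapDomainAlgHom k k up (o k f) • x = o k (up f) • x
  simp [o]

variable (k W) in
noncomputable def im : Submodule (R k) (Tw k W) :=
  mkR (LinearMap.range (tw.toLinearMap ∘ₗ DistribSMul.toLinearMap k W (o k sg))) (by
    rintro f _ ⟨x, rfl⟩
    exact ⟨o k f • x, ((tw_o f (o k sg • x)).trans (congrArg tw (by
      rw [oo, up_sg, ← oo]; rfl))).symm⟩)

noncomputable def pr : W →ₗ[k] Tw k W ⧸ im k W := (im k W).mkQ.restrictScalars k ∘ₗ tw.toLinearMap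

lemma pr_o (f : M) (x : W) : o k f • pr (k := k) x = pr (k := k) (o k (up f) • x) :=
  ((im k W).mkQ.map_smul _ _).symm.trans (congrArg _ (tw_o f x))

lemma pr_0 (x : W) : pr (k := k) x = 0 ↔ ∃ y, o k sg • y = x := Quotient.mk_eq_zero _

lemma Gen.step {n : ℕ} (h : Gen k W (n + 1)) : Gen k (Tw k W ⧸ im k W) n := by
  obtain ⟨r, X, h1, h2⟩ := h
  let s : ℕ → M := fun i => (Equiv.swap 0 i).toEmbedding
  let Y : Fin r × Fin (n + 1) → Tw k W ⧸ im k W := fun p => pr (o k (s p.2) • X p.1)
  refine ⟨_, Y ∘ finProdFinEquiv.symm, fun p f g e => ?_, eq_top_iff.mpr fun y _ => ?_⟩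
  · simp only [Y, comp, pr_o, oo]
    refine congrArg _ (h1 _ _ _ fun i hi => ?_)
    have : s (finProdFinEquiv.symm p).2 i < n + 1 := by
      show Equiv.swap 0 _ i < _
      rw [Equiv.swap_apply_def]; split_ifs <;> omega
    rw [mul_ap, mul_ap]
    generalize s _ i = j at this
    cases j
    · rfl
    · exact congrArg (· + 1) (e _ (by omega))
  obtain ⟨y, rfl⟩ : ∃ x : W, pr x = y := (im k W).mkQ_surjective y
  rw [finProdFinEquiv.symm.surjective.range_comp]
  refine gen_ind (((span (R k) (Set.range Y)).restrictScalars k).comap pr) ?_ y (h2 ▸ mem_top)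
  rintro f _ ⟨j, rfl⟩
  by_cases c : ∃ i < n + 1, f i = 0
  · obtain ⟨i, hi, c⟩ := c
    have z : ∀ a, (f * s i) (a + 1) ≠ 0 := fun a e => by
      have := (f * s i).inj (e.trans (show (f * s i) 0 = 0 by
        show f (Equiv.swap 0 i 0) = 0; rw [Equiv.swap_apply_left, c]).symm)
      omega
    have := (span (R k) (Set.range Y)).smul_mem (o k ⟨fun a => (f * s i) (a + 1) - 1, fun a b e => by
      have := (f * s i).inj (show (f * s i) (a + 1) = (f * s i) (b + 1) by
        have := z a; have := z b; dsimp only at e; omega)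
      omega⟩) (subset_span ⟨(j, ⟨i, hi⟩), rfl⟩)
    simp only [Y, pr_o, oo] at this
    convert this using 1
    refine Iff.of_eq (congrArg (fun g => pr (o k g • X j) ∈ span (R k) (Set.range Y))
      (M.ext fun a => ?_))
    obtain ⟨b, rfl⟩ := (Equiv.swap 0 i).surjective a
    rw [mul_ap, show s i (Equiv.swap 0 i b) = b from Equiv.swap_apply_self _ _ _]
    cases b
    · rw [Equiv.swap_apply_left, c]; rfl
    · exact (Nat.sub_add_cancel (Nat.pos_of_ne_zero (z _))).symm
  · push Not at c
    obtain ⟨K, -, hK⟩ := bnd f (n + 1)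
    have : pr (k := k) (o k f • X j) = 0 := (pr_0 _).mpr ⟨o k (patch (fun a => f a - 1) (n + 1) K
      (fun a ha b hb e => f.inj (by have := c a ha; have := c b hb; omega))
      fun a ha => (Nat.sub_le _ _).trans_lt (hK a ha)) • X j, by
        rw [oo]
        refine h1 j _ _ fun a ha => ?_
        show (if _ then _ else _) + 1 = _
        have := c a ha
        rw [if_pos ha]; omega⟩
    simp [this]

lemma Gen.fd0 [IsNoetherianRing k] {n : ℕ} (h : Gen k W n) : (sub k W 0).FG := by
  have := h.noeth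
  obtain ⟨Y, h1, h2, h3⟩ := fin0 (mkR (sub k W 0) fun f x hx => Supp.act hx f (by simp))
  rwa [show sub k W 0 = Y from le_antisymm (fun x hx => by
    simpa using h3 ⊥ (fun f x hx => by simp [hx f 1 (by simp), o1]) x hx) h2]

end

theorem main [IsArtinianRing k] (n : ℕ) : ∀ (W : Type w) [AddCommGroup W] [Module (R k) W] [Module k W]
    [IsScalarTower k (R k) W], Gen k W n → IsArtinian (R k) W ∧ ∀ m, (sub k W m).FG := by
  induction n with
  | zero =>
    intro W _ _ _ _ h
    have e : sub k W 0 = ⊤ := by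
      obtain ⟨r, X, h1, h2⟩ := h
      refine eq_top_iff.mpr fun x _ => gen_ind _ ?_ x (h2 ▸ mem_top)
      rintro f _ ⟨j, rfl⟩
      exact (h1 j).act f (by simp)
    have : Module.Finite k W := ⟨e ▸ h.fd0⟩
    exact ⟨isArtinian_of_tower k inferInstance, fun m => IsNoetherian.noetherian _⟩
  | succ n ih =>
    intro W _ _ _ _ h
    obtain ⟨h1, h2⟩ := ih _ h.step
    have can : ∀ x : W, ∃ t, o k t • o k sg • x = x := fun x => (h.tame x).choose_spec.cancel
    refine ⟨monotone_stabilizes_iff_artinian.mp fun A => ?_, fun m => ?_⟩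
    · have := h.noeth
      let D : Submodule (R k) W → Submodule (R k) (Tw k W ⧸ im k W) := fun B =>
        mkR ((B.restrictScalars k).map pr) (by
          rintro f _ ⟨x, hx, rfl⟩
          exact ⟨_, B.smul_mem _ hx, (pr_o f x).symm⟩)
      obtain ⟨a, ha⟩ := IsArtinian.monotone_stabilizes (R := R k)
        ⟨fun i => OrderDual.toDual (D (A i)), fun i j l => map_mono (A.monotone l)⟩
      obtain ⟨Y, y1, y2, y3⟩ := fin0 (OrderDual.ofDual (A a))
      have : Module.Finite k Y := Module.Finite.iff_fg.mpr y1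
      obtain ⟨b, hb⟩ := IsArtinian.monotone_stabilizes (R := k) ⟨fun i => OrderDual.toDual
        (((OrderDual.ofDual (A i)).restrictScalars k).comap Y.subtype),
        fun i j l => comap_mono (A.monotone l)⟩
      have t : ∀ j, a ≤ j → ∀ f, ∀ x ∈ OrderDual.ofDual (A a),
          o k f • x - x ∈ OrderDual.ofDual (A j) := fun j hj f x hx => by
        set B := OrderDual.ofDual (A j)
        have u : ∀ m, ∀ x ∈ OrderDual.ofDual (A a), ∃ y ∈ OrderDual.ofDual (A a),
            B.mkQ x = o k (sg ^ m) • B.mkQ y := fun m => by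
          induction m with
          | zero => exact fun x hx => ⟨x, hx, (o1 _).symm⟩
          | succ m ih2 =>
            intro x hx
            obtain ⟨y, hy, e⟩ := ih2 x hx
            obtain ⟨z, hz, e2⟩ : pr y ∈ D B := (show D (A a) = D B from ha j hj) ▸ ⟨y, hy, rfl⟩
            obtain ⟨w, hw⟩ := (pr_0 (y - z)).mp (by rw [map_sub, e2, sub_self])
            obtain ⟨t, ht⟩ := can w
            refine ⟨w, ht ▸ smul_mem _ _ (hw ▸ sub_mem hy (A.monotone hj hz)), ?_⟩
            rw [e, pow_succ, ← oo, ← map_smul _ (o k sg), hw, map_sub,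
              show B.mkQ z = 0 from (Quotient.mk_eq_zero _).mpr hz, sub_zero]
        obtain ⟨m, hm⟩ := h.tame x
        obtain ⟨y, -, e⟩ := u m x hx
        rw [← Submodule.Quotient.eq]
        exact (map_smul B.mkQ _ _).trans ((hm.map B.mkQ).triv e f)
      refine ⟨max a b, fun j hj => le_antisymm (A.monotone hj) fun x hx => ?_⟩
      have aj := (le_max_left a b).trans hj
      obtain ⟨u, hu, v, hv, rfl⟩ := mem_sup.mp (y3 ((⨅ i, OrderDual.ofDual (A (a + i))).restrictScalars
        k) (fun f x hx => (mem_iInf _).mpr fun i => t _ (by omega) f x hx) x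
        (A.monotone (le_max_left a b) hx))
      have hu2 : ∀ i, a ≤ i → u ∈ OrderDual.ofDual (A i) := fun i hi => by
        have := (mem_iInf _).mp hu (i - a)
        rwa [Nat.add_sub_cancel' hi] at this
      refine add_mem (hu2 j aj) ?_
      have e := (hb _ (le_max_right a b)).symm.trans (hb j ((le_max_right a b).trans hj))
      exact (congrArg (fun S => (⟨v, hv⟩ : Y) ∈ OrderDual.ofDual S) e).mp
        ((Submodule.add_mem_iff_right _ (hu2 _ (le_max_left a b))).mp hx)
    · induction m with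
      | zero => exact h.fd0
      | succ m ih2 =>
        refine fg_of_fg_map_of_fg_inf_ker pr ((h2 m).of_le ?_)
          ((ih2.map (DistribSMul.toLinearMap k W (o k sg))).of_le ?_)
        · rintro _ ⟨x, hx, rfl⟩ f g e
          rw [pr_o, pr_o, hx (up f) (up g) fun i hi => ?_]
          cases i
          · rfl
          · exact congrArg (· + 1) (e _ (by omega))
        · rintro _ ⟨hx, h0⟩
          obtain ⟨y, rfl⟩ := (pr_0 _).mp h0
          refine ⟨y, fun f g e => ?_, rfl⟩
          have := hx (up f) (up g) fun i hi => by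
            cases i
            · rfl
            · exact congrArg (· + 1) (e _ (by omega))
          obtain ⟨t, ht⟩ := can (o k f • y - o k g • y)
          rw [oo, oo, up_sg, up_sg, ← oo, ← oo] at this
          rw [← sub_eq_zero, ← ht, smul_sub, this, sub_self, smul_zero]

end Pool.Agent.H23.FI
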