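import Pool.Agent.H23.FI.TameA

set_option autoImplicit false

/-!
# Tame modules of finite uniform dimension over commutative Artinian rings

Adapted from the case of a field (`Pool/Graph/R_pool_sql_team_ae5b0c61/H89/TameA.lean`).
-/

namespace Pool.Agent.H23.FI

open Function Submodule

universe u w

variable {k : Type u} [CommRing k]

/-- there is no infinite sequence of nonzero submodules each of which meets the sum of the
previous ones only in zero -/
def FinUDim (k : Type u) [CommRing k] (J : Type w) [AddCommGroup J] [Module (R k) J] : Prop :=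
  ∀ A : ℕ → Submodule (R k) J, (∀ i, A i ≠ ⊥) → ∃ i, A i ⊓ ⨆ j < i, A j ≠ ⊥

section
variable {J : Type w} [AddCommGroup J] [Module (R k) J] [Module k J] [IsScalarTower k (R k) J]

/-- homomorphisms from a simple module -/
lemma sim_fin [IsArtinianRing k] (ht : ∀ x : J, ∃ m, Supp k m x) (hu : FinUDim k J)
    (T : Type u) [AddCommGroup T] [Module (R k) T] [IsSimpleModule (R k) T] :
    Module.Finite k (T →ₗ[R k] J) := by
  classical
  have := IsSimpleModule.nontrivial (R k) T
  obtain ⟨t, t0⟩ := exists_ne (0 : T)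
  have st := IsSimpleModule.span_singleton_eq_top (R k) t0
  let ev : (T →ₗ[R k] J) →ₗ[k] J := ⟨⟨fun g => g t, fun _ _ => rfl⟩, fun _ _ => rfl⟩
  have ei : Injective ev := (injective_iff_map_eq_zero ev).mpr fun g hg =>
    LinearMap.ext_on st (by rintro _ rfl; exact hg)
  by_contra hfin
  have hG : ∀ F : Finset (T →ₗ[R k] J), ∃ g : T →ₗ[R k] J, g ≠ 0 ∧
      LinearMap.range g ⊓ (⨆ f ∈ F, LinearMap.range f) = ⊥ := by
    intro F
    by_contra hcon
    push Not at hcon
    apply hfin
    by_cases c : ∃ f : T →ₗ[R k] J, f ≠ 0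
    swap
    · push Not at c
      have : Subsingleton (T →ₗ[R k] J) := ⟨fun a b => (c a).trans (c b).symm⟩
      infer_instance
    obtain ⟨f0, hf0⟩ := c
    obtain ⟨a, ha⟩ := ht (f0 t)
    have fi := LinearMap.injective_of_ne_zero hf0
    have ta : Supp k a t := fun g h e => fi (by rw [map_smul, map_smul, ha g h e])
    set N : Submodule (R k) J := ⨆ f ∈ F, LinearMap.range f with hN
    have hle : ∀ f ∈ F, LinearMap.range f ≤ N := fun f hf => le_iSup₂_of_le f hf le_rfl
    -- `N` is generated by the elements `f t`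
    let X : Fin F.card → N := fun i =>
      ⟨(F.equivFin.symm i).1 t, hle _ (F.equivFin.symm i).2 ⟨t, rfl⟩⟩
    have hgen : Gen k N a := by
      refine ⟨F.card, X, fun i g h e => Subtype.ext ?_, ?_⟩
      · exact (ta.map (F.equivFin.symm i).1) g h e
      · rw [eq_top_iff]
        have h1 : N ≤ (span (R k) (Set.range X)).map N.subtype := by
          refine iSup₂_le fun f hf => ?_
          rintro _ ⟨y, rfl⟩
          have hy : y ∈ span (R k) {t} := st ▸ mem_top
          obtain ⟨r, rfl⟩ := mem_span_singleton.mp hy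
          rw [map_smul]
          refine smul_mem _ _ ⟨X (F.equivFin ⟨f, hf⟩), subset_span ⟨_, rfl⟩, ?_⟩
          simp [X]
        intro y _
        obtain ⟨z, hz, hzy⟩ := h1 y.2
        rwa [show y = z from Subtype.ext hzy.symm]
    have fg := ((main a N hgen).2 a).map (N.subtype.restrictScalars k)
    refine ⟨fg_of_fg_map_injective ev ei (fg.of_le ?_)⟩
    rintro _ ⟨g, -, rfl⟩
    by_cases g0 : g = 0
    · simp [g0]
    have m : N.comap g = ⊤ := (eq_bot_or_eq_top _).resolve_left fun e =>
      hcon g g0 (by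
        rw [← map_comap_eq_self (inf_le_left : LinearMap.range g ⊓ N ≤ _),
          comap_inf, e, inf_bot_eq, Submodule.map_bot])
    exact ⟨⟨g t, show t ∈ N.comap g from m ▸ mem_top⟩,
      fun x y e => Subtype.ext (ta.map g x y e), rfl⟩
  choose G hG0 hG1 using hG
  let F : ℕ → Finset (T →ₗ[R k] J) := fun n => Nat.rec ∅ (fun _ F => insert (G F) F) n
  have hF : ∀ n, F (n + 1) = insert (G (F n)) (F n) := fun n => rfl
  have hmem : ∀ i j, j < i → G (F j) ∈ F i := by
    intro i
    induction i with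
    | zero => intro j hj; omega
    | succ i ih =>
      intro j hj
      rw [hF]
      rcases Nat.lt_succ_iff_lt_or_eq.mp hj with h | h
      · exact Finset.mem_insert_of_mem (ih j h)
      · rw [h]; exact Finset.mem_insert_self _ _
  obtain ⟨i, hi⟩ := hu (fun i => LinearMap.range (G (F i))) fun i =>
    mt LinearMap.range_eq_bot.mp (hG0 _)
  apply hi
  rw [eq_bot_iff, ← hG1 (F i)]
  exact inf_le_inf_left _ (iSup₂_le fun j hj => le_iSup₂_of_le (G (F j)) (hmem i j hj) le_rfl)

theorem fud_fg [IsArtinianRing k] (ht : ∀ x : J, ∃ m, Supp k m x) (hu : FinUDim k J) (n : ℕ) :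
    (sub k J n).FG := by
  have len : ∀ (T : Type u) [AddCommGroup T] [Module (R k) T], IsFiniteLength (R k) T →
      Module.Finite k (T →ₗ[R k] J) := fun T _ _ h => by
    induction h with
    | of_subsingleton => infer_instance
    | @of_simple_quotient T _ _ N _ _ ih =>
      let a : (T →ₗ[R k] J) →ₗ[k] (N →ₗ[R k] J) :=
        ⟨⟨fun g => g ∘ₗ N.subtype, fun _ _ => rfl⟩, fun _ _ => rfl⟩
      let b : (T ⧸ N →ₗ[R k] J) →ₗ[k] (T →ₗ[R k] J) :=
        ⟨⟨fun g => g ∘ₗ N.mkQ, fun _ _ => rfl⟩, fun _ _ => rfl⟩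
      refine ⟨fg_of_fg_map_of_fg_inf_ker a (IsNoetherian.noetherian _)
        (((sim_fin ht hu (T ⧸ N)).1.map b).of_le fun g hg => ⟨N.liftQ g fun x hx => ?_, trivial, ?_⟩)⟩
      · exact LinearMap.congr_fun hg.2 ⟨x, hx⟩
      · exact N.liftQ_mkQ _ _
  let L : Submodule (R k) (R k) := span _ {r | ∃ f g : M, (∀ i < n, f i = g i) ∧ r = o k f - o k g}
  have G : Gen k (R k ⧸ L) n := ⟨1, fun _ => L.mkQ 1, fun _ f g e => by
    rw [← map_smul, ← map_smul]
    exact (Submodule.Quotient.eq _).mpr (subset_span ⟨f, g, e, by simp⟩), by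
    rw [Set.range_const, ← Set.image_singleton, ← map_span, Ideal.submodule_span_eq,
      Ideal.span_singleton_one, Submodule.map_top, range_mkQ]⟩
  let ev : (R k ⧸ L →ₗ[R k] J) →ₗ[k] J := ⟨⟨fun g => g (L.mkQ 1), fun _ _ => rfl⟩, fun _ _ => rfl⟩
  refine ((len _ (isFiniteLength_iff_isNoetherian_isArtinian.mpr
    ⟨G.noeth, (main n _ G).1⟩)).1.map ev).of_le fun x hx =>
    ⟨L.liftQ (LinearMap.toSpanSingleton _ _ x) (span_le.mpr ?_), trivial, by simp [ev]⟩
  rintro _ ⟨f, g, e, rfl⟩
  simp [sub_smul, hx f g e]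

end

end Pool.Agent.H23.FI
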